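import Pool.Agent.H73.TR.Di

/-!
# Counting the triplets
-/

set_option autoImplicit false

open MeasureTheory Filter Topology Set

namespace Pool.Agent.H73.TR

open Pool.Agent.H49.BP

/-- the density and `1 / log` -/
theorem int_cmp {f : ℝ → ℝ} (hf : Measurable f) (hb : ∀ u, |f u| ≤ 1) {x : ℝ} (hx : 2 ≤ x) :
    |(∫ u in (2 : ℝ)..x, f u * md u) - ∫ u in (2 : ℝ)..x, f u / Real.log u| ≤ 4 * √x := by
  have hx0 : 0 < x := by linarith
  have hli0 : IntervalIntegrable (fun u : ℝ => (Real.log u)⁻¹) volume 2 x := by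
    refine ContinuousOn.intervalIntegrable ?_
    rw [uIcc_of_le hx]
    intro u hu
    have hu1 : 1 < u := by linarith [hu.1]
    exact ((Real.continuousAt_log (by linarith)).inv₀ (log_pos' hu1).ne').continuousWithinAt
  have hli : IntervalIntegrable (fun u : ℝ => f u / Real.log u) volume 2 x := by
    refine hli0.mono_fun (hf.div Real.measurable_log).aestronglyMeasurable ?_
    refine Eventually.of_forall fun u => ?_
    beta_reduce
    rw [div_eq_mul_inv, norm_mul, Real.norm_eq_abs (f u)]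
    exact mul_le_of_le_one_left (norm_nonneg _) (hb u)
  have hui : IntervalIntegrable (fun u : ℝ => u⁻¹) volume 2 x := by
    refine ContinuousOn.intervalIntegrable ?_
    rw [uIcc_of_le hx]
    intro u hu
    exact (continuousAt_inv₀ (by linarith [hu.1])).continuousWithinAt
  rw [← intervalIntegral.integral_sub (bmd_int hf hb (by norm_num) (by linarith)) hli]
  have h9 : |∫ u in (2 : ℝ)..x, (f u * md u - f u / Real.log u)| ≤ ∫ u in (2 : ℝ)..x, 2 * u⁻¹ := by
    rw [← Real.norm_eq_abs]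
    refine intervalIntegral.norm_integral_le_of_norm_le hx (Eventually.of_forall fun u hu => ?_) (hui.const_mul 2)
    have hu2 : 2 ≤ u := hu.1.le
    have hl : 0 < Real.log u := log_pos' (by linarith)
    have hl2 : 1 / 2 ≤ Real.log u := log_half' hu2
    have e : f u * md u - f u / Real.log u = f u * (-(u⁻¹ * (Real.log u)⁻¹)) := by
      unfold md
      field_simp
      ring
    rw [e, norm_mul, norm_neg, norm_mul, norm_inv, norm_inv, Real.norm_of_nonneg (by linarith : 0 ≤ u),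
      Real.norm_of_nonneg hl.le, Real.norm_eq_abs]
    have h1 : (Real.log u)⁻¹ ≤ 2 := by
      rw [inv_le_comm₀ hl (by norm_num)]
      linarith
    have h2 : 0 ≤ u⁻¹ := by positivity
    have h3 : 0 ≤ (Real.log u)⁻¹ := by positivity
    calc |f u| * (u⁻¹ * (Real.log u)⁻¹) ≤ 1 * (u⁻¹ * 2) :=
          mul_le_mul (hb u) (mul_le_mul_of_nonneg_left h1 h2) (by positivity) zero_le_one
      _ = 2 * u⁻¹ := by ring
  have h12 : ∫ u in (2 : ℝ)..x, 2 * u⁻¹ = 2 * Real.log (x / 2) := by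
    rw [intervalIntegral.integral_const_mul, integral_inv_of_pos (by norm_num) hx0]
  have h13 : Real.log (x / 2) ≤ 2 * √x := by
    have h14 : Real.log (x / 2) ≤ Real.log x := Real.log_le_log (by positivity) (by linarith)
    have h15 : Real.log x = 2 * Real.log (√x) := by
      rw [Real.log_sqrt hx0.le]
      ring
    have hsx : 1 ≤ √x := Real.one_le_sqrt.2 (by linarith)
    have h16 := Real.log_le_sub_one_of_pos (x := √x) (by linarith)
    linarith
  rw [h12] at h9
  linarith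

section
variable {τ : ℕ → ℕ} (hτ : ∀ j, Good (τ j) j) {v : ℕ → ℝ} (hv : ∀ j, v j ∈ Ioc (0 : ℝ) 1)

include hτ hv

theorem primes_qs : ∃ C : ℝ, ∀ x : ℝ, 2 ≤ x →
    |(pc (qs τ v) x : ℝ) - ∫ u in (2 : ℝ)..x, (Real.log u)⁻¹| ≤ C * √x := by
  refine ⟨6 + MM 2 + 4, fun x hx => ?_⟩
  obtain ⟨J, hJ1, hJ2⟩ := exists_slot3 (x := x) (by linarith)
  obtain ⟨h1, h2⟩ := pc_slot hτ hv hJ1 hJ2
  have h1' : ((3 * J : ℕ) : ℝ) ≤ pc (qs τ v) x := by exact_mod_cast h1
  have h2' : (pc (qs τ v) x : ℝ) ≤ ((3 * J + 3 : ℕ) : ℝ) := by exact_mod_cast h2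
  push_cast at h1' h2'
  have h4 := MM_le (tt_one_le (3 * J)) hJ1
  have h5 := MM_le (a := x) (by linarith) hJ2.le
  rw [MM_tt] at h4 h5
  push_cast at h4 h5
  have h6 := int_cmp (f := fun _ => (1 : ℝ)) measurable_const (fun u => by simp) hx
  simp only [one_mul, one_div] at h6
  have h7 : MM x = MM 2 + ∫ u in (2 : ℝ)..x, md u := by
    rw [← MM_sub (by norm_num) (by linarith)]
    ring
  have hsx : 1 ≤ √x := Real.one_le_sqrt.2 (by linarith)
  have h22 : 0 ≤ MM 2 := MM_nonneg (by norm_num)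
  have h23 : MM 2 ≤ MM 2 * √x := le_mul_of_one_le_right h22 hsx
  rw [abs_le] at h6 ⊢
  obtain ⟨h61, h62⟩ := h6
  constructor <;> nlinarith

end

/-! ### The lengths of the unit slots -/

theorem sub_len (K : ℝ) : ∃ n0 : ℕ, ∀ n, n0 ≤ n → K < tt (n + 1) - tt n := by
  obtain ⟨n0, hn0⟩ := exists_nat_gt (Real.exp (|K| + 1))
  refine ⟨n0, fun n hn => ?_⟩
  have h1 := tt_ge n
  have h2 : (n0 : ℝ) ≤ n := by exact_mod_cast hn
  have h3 : Real.exp (|K| + 1) < tt n := by linarith
  have h4 : |K| + 1 < Real.log (tt n) := by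
    rw [Real.lt_log_iff_exp_lt (by linarith [tt_one_le n])]
    exact h3
  have h5 : 1 < tt n := by
    have := Real.add_one_le_exp (|K| + 1)
    have := abs_nonneg K
    linarith
  have h6 := MM_inc_le h5 (tt_lt n).le
  rw [MM_tt, MM_tt] at h6
  push_cast at h6
  have h7 : 0 < Real.log (tt n) := by linarith [abs_nonneg K]
  rw [le_div_iff₀ h7] at h6
  have := le_abs_self K
  linarith

theorem len_ge (K : ℝ) : ∃ j0 : ℕ, ∀ j, j0 ≤ j → K < len j := by
  obtain ⟨n0, hn0⟩ := sub_len K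
  refine ⟨n0, fun j hj => ?_⟩
  have h1 := hn0 (3 * j) (by omega)
  have h2 : tt (3 * j + 1) ≤ tt (3 * j + 3) := tt_mono.monotone (by omega)
  unfold len
  linarith

/-! ### The test of the triplets -/

open Classical in
/-- the test -/
noncomputable def cnt (τ : ℕ → ℕ) (s : ℕ) (j : ℕ) (v : ℝ) : ℝ :=
  if τ j = s ∧ pp j v + 6 ≤ tt (3 * j + 3) then 1 else 0

theorem cnt_meas (τ : ℕ → ℕ) (s j : ℕ) : Measurable (cnt τ s j) := by
  unfold cnt
  by_cases h : τ j = s
  · simp only [h, true_and]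
    exact Measurable.ite (measurableSet_le ((pp_meas j).add_const _) measurable_const) measurable_const measurable_const
  · simp only [h, false_and, if_false]
    exact measurable_const

theorem cnt_abs (τ : ℕ → ℕ) (s j : ℕ) (v : ℝ) : |cnt τ s j v| ≤ 1 := by
  unfold cnt
  split_ifs <;> simp

theorem cnt_mean {τ : ℕ → ℕ} {s j : ℕ} (h : τ j = s → 24 ≤ len j) :
    ∫ y, cnt τ s j y ∂un = if τ j = s then 1 - 6 / len j else 0 := by
  classical
  by_cases hs : τ j = s
  · rw [if_pos hs]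
    have hl := h hs
    have hl0 := len_pos j
    have hc1 : 0 ≤ 1 - 6 / len j := by
      rw [sub_nonneg, div_le_one hl0]
      linarith
    have hc2 : 1 - 6 / len j ≤ 1 := by
      have : 0 ≤ 6 / len j := by positivity
      linarith
    have e : cnt τ s j = (Iic (1 - 6 / len j)).indicator 1 := by
      funext y
      unfold cnt
      rw [Set.indicator_apply]
      have h1 : (τ j = s ∧ pp j y + 6 ≤ tt (3 * j + 3)) ↔ y ∈ Iic (1 - 6 / len j) := by
        rw [mem_Iic, and_iff_right hs]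
        unfold pp
        have hl' : tt (3 * j + 3) - tt (3 * j) = len j := rfl
        rw [hl']
        constructor
        · intro h2
          have h3 : y * len j ≤ len j - 6 := by linarith
          have h4 : y ≤ (len j - 6) / len j := by rwa [le_div_iff₀ hl0]
          rw [sub_div, div_self hl0.ne'] at h4
          exact h4
        · intro h2
          have h3 : y * len j ≤ (1 - 6 / len j) * len j := mul_le_mul_of_nonneg_right h2 hl0.le
          have h4 : (1 - 6 / len j) * len j = len j - 6 := by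
            field_simp
          linarith
      by_cases h2 : y ∈ Iic (1 - 6 / len j)
      · rw [if_pos (h1.2 h2), if_pos h2]
        rfl
      · rw [if_neg (fun h3 => h2 (h1.1 h3)), if_neg h2]
    rw [e, integral_indicator_one measurableSet_Iic]
    unfold un
    rw [measureReal_restrict_apply measurableSet_Iic]
    have h5 : Iic (1 - 6 / len j) ∩ Ioc (0 : ℝ) 1 = Ioc 0 (1 - 6 / len j) := by
      ext y
      simp only [mem_inter_iff, mem_Iic, mem_Ioc]
      constructor
      · rintro ⟨h1, h2, h3⟩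
        exact ⟨h2, h1⟩
      · rintro ⟨h1, h2⟩
        exact ⟨h2, h1, h2.trans hc2⟩
    rw [h5, Real.volume_real_Ioc_of_le hc1]
    ring
  · rw [if_neg hs]
    have e : cnt τ s j = fun _ => 0 := by
      funext y
      unfold cnt
      rw [if_neg (fun h => hs h.1)]
    rw [e]
    simp

/-! ### The triplets -/

theorem trip_unw {τ : ℕ → ℕ} {v : ℕ → ℝ} {s j : ℕ} (hs : s = 2 ∨ s = 4) (h1 : τ j = s)
    (h2 : pp j (v j) + 6 ≤ tt (3 * j + 3)) :
    qs τ v (3 * j + 1) = qs τ v (3 * j) + s ∧ qs τ v (3 * j + 2) = qs τ v (3 * j) + 6 := by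
  have hs0 : s ≠ 0 := by rcases hs with h | h <;> omega
  have e0 : qs τ v (3 * j) = pts (τ j) j (v j) 0 := qs_eq τ v j (i := 0) (by norm_num)
  rw [e0, qs_eq τ v j (by norm_num), qs_eq τ v j (by norm_num), h1]
  unfold pts
  simp only [if_neg hs0, if_pos h2, if_true, one_ne_zero, if_false, OfNat.ofNat_ne_zero, OfNat.ofNat_ne_one, and_self]

section
variable {τ : ℕ → ℕ} (hτ : ∀ j, Good (τ j) j) {v : ℕ → ℝ} (hv : ∀ j, v j ∈ Ioc (0 : ℝ) 1)
  (hN : ∀ j, qs τ v (3 * (j + 1)) ≠ qs τ v (3 * j + 1) + 6 ∧ qs τ v (3 * (j + 1) + 1) ≠ qs τ v (3 * j + 2) + 6)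
  {j1 : ℕ} (hj1 : ∀ n, j1 ≤ n → 6 < tt (n + 1) - tt n)

include hτ hv hN hj1

theorem trip_char {n : ℕ} (hn : 3 * j1 ≤ n) (h : qs τ v (n + 2) = qs τ v n + 6) :
    ∃ j, j1 ≤ j ∧ n = 3 * j ∧ (τ j = 2 ∨ τ j = 4) ∧ pp j (v j) + 6 ≤ tt (3 * j + 3) := by
  obtain ⟨j, i, hi, rfl⟩ : ∃ j i, i < 3 ∧ n = 3 * j + i := ⟨n / 3, n % 3, Nat.mod_lt _ (by norm_num), by omega⟩
  have hj : j1 ≤ j := by omega
  interval_cases i
  · refine ⟨j, hj, by ring, ?_⟩
    have e0 : qs τ v (3 * j) = pts (τ j) j (v j) 0 := qs_eq τ v j (i := 0) (by norm_num)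
    rw [add_zero, qs_eq τ v j (by norm_num), e0] at h
    rcases hτ j with h0 | ⟨hs, hl⟩
    · -- the type 0
      exfalso
      rw [h0] at h
      simp only [pts, if_true, add_zero] at h
      have h1 := tt_lt (3 * j)
      have h2 := tt_lt (3 * j + 2)
      have h3 := hj1 (3 * j + 1) (by omega)
      have e1 : 3 * j + 1 + 1 = 3 * j + 2 := rfl
      rw [e1] at h3
      have hvj := hv j
      have h4 : 0 ≤ v j * (tt (3 * j + 2 + 1) - tt (3 * j + 2)) := mul_nonneg hvj.1.le (by linarith)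
      have h5 : v j * (tt (3 * j + 1) - tt (3 * j)) ≤ tt (3 * j + 1) - tt (3 * j) :=
        mul_le_of_le_one_left (by linarith) hvj.2
      linarith
    · refine ⟨hs, ?_⟩
      by_contra c1
      have hs0 : τ j ≠ 0 := by rcases hs with h | h <;> omega
      have hs4 : (τ j : ℝ) ≤ 4 := by rcases hs with h | h <;> (rw [h]; norm_num)
      have hs2 : (2 : ℝ) ≤ τ j := by rcases hs with h | h <;> (rw [h]; norm_num)
      unfold pts at h
      simp only [if_neg hs0, if_neg c1] at h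
      by_cases c2 : pp j (v j) + (τ j : ℝ) ≤ tt (3 * j + 3)
      · simp only [if_pos c2, if_true, if_false, OfNat.ofNat_ne_zero, OfNat.ofNat_ne_one] at h
        linarith
      · simp only [if_neg c2, if_true, if_false, OfNat.ofNat_ne_zero, OfNat.ofNat_ne_one] at h
        linarith
  · exfalso
    exact (hN j).1 h
  · exfalso
    exact (hN j).2 h

theorem trip_type {s : ℕ} {n : ℕ} (hn : 3 * j1 ≤ n) (h1 : qs τ v (n + 1) = qs τ v n + s)
    (h : qs τ v (n + 2) = qs τ v n + 6) :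
    ∃ j, j1 ≤ j ∧ n = 3 * j ∧ τ j = s ∧ pp j (v j) + 6 ≤ tt (3 * j + 3) := by
  obtain ⟨j, hj, rfl, hs', hu⟩ := trip_char hτ hv hN hj1 hn h
  refine ⟨j, hj, rfl, ?_, hu⟩
  have h2 := (trip_unw (v := v) hs' rfl hu).1
  have h3 : ((τ j : ℕ) : ℝ) = s := by linarith
  exact_mod_cast h3

open Classical in
theorem count_bd {s : ℕ} (hs : s = 2 ∨ s = 4) {x : ℝ} {J : ℕ} (h1 : tt (3 * J) ≤ x) (h2 : x < tt (3 * J + 3)) :
    |({n : ℕ | qs τ v n ≤ x ∧ qs τ v (n + 1) = qs τ v n + s ∧ qs τ v (n + 2) = qs τ v n + 6}.ncard : ℝ) -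
      ∑ j ∈ Finset.range J, cnt τ s j (v j)| ≤ 1 + 3 * j1 := by
  set T : Set ℕ := {n : ℕ | qs τ v n ≤ x ∧ qs τ v (n + 1) = qs τ v n + s ∧ qs τ v (n + 2) = qs τ v n + 6} with hT
  set G : Finset ℕ := (Finset.range J).filter fun j => τ j = s ∧ pp j (v j) + 6 ≤ tt (3 * j + 3) with hG
  have hsum : ∑ j ∈ Finset.range J, cnt τ s j (v j) = G.card := by
    unfold cnt
    rw [Finset.sum_boole]
  have hfin : T.Finite := by
    obtain ⟨N, hN'⟩ := pc_set (qs_mono hτ hv) (qs_ge hτ hv) x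
    refine (finite_Iio N).subset ?_
    rw [← hN']
    exact fun n hn => hn.1
  have hlow : G.card ≤ T.ncard := by
    have h3 : ((G.image fun j => 3 * j : Finset ℕ) : Set ℕ) ⊆ T := by
      intro n hn
      rw [Finset.mem_coe, Finset.mem_image] at hn
      obtain ⟨j, hj, rfl⟩ := hn
      rw [hG, Finset.mem_filter, Finset.mem_range] at hj
      obtain ⟨hjJ, hjs, hju⟩ := hj
      have h4 := trip_unw (v := v) hs hjs hju
      refine ⟨?_, h4.1, h4.2⟩
      have h5 := (qs_slot hτ hv j (i := 0) (by norm_num)).2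
      have h6 : tt (3 * j + 3) ≤ tt (3 * J) := tt_mono.monotone (by omega)
      rw [add_zero] at h5
      linarith
    have h4 := Set.ncard_le_ncard h3 hfin
    rw [Set.ncard_coe_finset, Finset.card_image_of_injective _ (fun a b hab => by simpa using hab)] at h4
    exact h4
  have hup : T.ncard ≤ 3 * j1 + (G.card + 1) := by
    have h3 : T ⊆ ((Finset.range (3 * j1) ∪ ((insert J G).image fun j => 3 * j) : Finset ℕ) : Set ℕ) := by
      intro n hn
      rw [Finset.mem_coe, Finset.mem_union, Finset.mem_range]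
      by_cases hn1 : n < 3 * j1
      · exact Or.inl hn1
      · right
        push Not at hn1
        obtain ⟨j, hj, rfl, hjs, hju⟩ := trip_type hτ hv hN hj1 hn1 hn.2.1 hn.2.2
        rw [Finset.mem_image]
        refine ⟨j, ?_, rfl⟩
        rw [Finset.mem_insert]
        have h4 := (qs_slot hτ hv j (i := 0) (by norm_num)).1
        rw [add_zero] at h4
        have h5 : tt (3 * j) < tt (3 * J + 3) := by
          have := hn.1
          linarith
        have h6 : 3 * j < 3 * J + 3 := tt_mono.lt_iff_lt.1 h5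
        rcases Nat.lt_or_ge j J with h7 | h7
        · right
          rw [hG, Finset.mem_filter, Finset.mem_range]
          exact ⟨h7, hjs, hju⟩
        · left
          omega
    have h4 := Set.ncard_le_ncard h3 (Finset.finite_toSet _)
    rw [Set.ncard_coe_finset] at h4
    refine h4.trans ((Finset.card_union_le _ _).trans ?_)
    rw [Finset.card_range]
    have h5 : ((insert J G).image fun j => 3 * j).card ≤ (insert J G).card := Finset.card_image_le
    have h6 := Finset.card_insert_le J G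
    omega
  rw [hsum, abs_le]
  have h7 : (G.card : ℝ) ≤ T.ncard := by exact_mod_cast hlow
  have h8 : (T.ncard : ℝ) ≤ ((3 * j1 + (G.card + 1) : ℕ) : ℝ) := by exact_mod_cast hup
  push_cast at h8
  have h9 : (0 : ℝ) ≤ j1 := Nat.cast_nonneg j1
  constructor <;> linarith

/-- the count -/
theorem count_main {s : ℕ} (hs : s = 2 ∨ s = 4)
    (hc : ∀ δ : ℝ, 0 < δ → ∃ C : ℝ, 0 ≤ C ∧ ∀ J : ℕ,
      |∑ j ∈ Finset.range J, (cnt τ s j (v j) - ∫ y, cnt τ s j y ∂un)| ≤ C * (J : ℝ) ^ (1 / 2 + δ))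
    {f : ℝ → ℝ} (hf : Measurable f) (hf0 : ∀ u, 0 ≤ f u) (hf1 : ∀ u, f u ≤ 1) {j0 : ℕ}
    (hW : ∀ J : ℕ, |∑ j ∈ Finset.range J, (∫ y, cnt τ s j y ∂un -
      if j < j0 then 0 else ∫ u in (tt (3 * j))..(tt (3 * j + 3)), f u * md u)| ≤ 1) :
    ∀ ε : ℝ, 0 < ε → ∃ C : ℝ, ∀ x : ℝ, 2 ≤ x →
      |({n : ℕ | qs τ v n ≤ x ∧ qs τ v (n + 1) = qs τ v n + s ∧ qs τ v (n + 2) = qs τ v n + 6}.ncard : ℝ) -
        ∫ u in (2 : ℝ)..x, f u / Real.log u| ≤ C * x ^ (1 / 2 + ε) := by
  intro ε hε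
  obtain ⟨C, hC0, hC⟩ := hc ε hε
  refine ⟨(1 + 3 * j1) + C + 1 + 3 * j0 + 3 + 1 + 4, fun x hx => ?_⟩
  obtain ⟨J, hJ1, hJ2⟩ := exists_slot3 (x := x) (by linarith)
  have hfb : ∀ u, |f u| ≤ 1 := fun u => by
    rw [abs_of_nonneg (hf0 u)]
    exact hf1 u
  have hx0 : 0 < x := by linarith
  have hx1' : 1 ≤ x := by linarith
  have hxs : √x ≤ x ^ (1 / 2 + ε) := by
    rw [Real.sqrt_eq_rpow]
    exact Real.rpow_le_rpow_of_exponent_le hx1' (by linarith)
  have hx1 : 1 ≤ x ^ (1 / 2 + ε) := Real.one_le_rpow hx1' (by linarith)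
  have hJx : (J : ℝ) ≤ x := by
    have := tt_ge (3 * J)
    push_cast at this
    have hJ0 : (0 : ℝ) ≤ J := Nat.cast_nonneg J
    linarith
  have hJp : (J : ℝ) ^ (1 / 2 + ε) ≤ x ^ (1 / 2 + ε) := Real.rpow_le_rpow (Nat.cast_nonneg J) hJx (by linarith)
  have a1 := count_bd hτ hv hN hj1 hs hJ1 hJ2
  have a2 := hC J
  have a3 := hW J
  -- the slots before `j0`
  have hslot : ∀ j, 0 ≤ ∫ u in (tt (3 * j))..(tt (3 * j + 3)), f u * md u ∧
      ∫ u in (tt (3 * j))..(tt (3 * j + 3)), f u * md u ≤ 3 := by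
    intro j
    have hle : tt (3 * j) ≤ tt (3 * j + 3) := tt_mono.monotone (by omega)
    constructor
    · refine intervalIntegral.integral_nonneg hle fun u hu => ?_
      exact mul_nonneg (hf0 u) (md_nonneg ((tt_one_le _).trans hu.1))
    · have h3 := intervalIntegral.integral_mono_on hle (bmd_int hf hfb (tt_one_le (3 * j)) (tt_one_le (3 * j + 3)))
        (md_int (tt_one_le (3 * j)) (tt_one_le (3 * j + 3))) (fun u hu => by
          exact mul_le_of_le_one_left (md_nonneg ((tt_one_le _).trans hu.1)) (hf1 u))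
      rw [← MM_sub (tt_one_le _) (tt_one_le _), MM_tt, MM_tt] at h3
      push_cast at h3
      linarith
  have a4 : |∑ j ∈ Finset.range J, ((if j < j0 then 0 else ∫ u in (tt (3 * j))..(tt (3 * j + 3)), f u * md u) -
      ∫ u in (tt (3 * j))..(tt (3 * j + 3)), f u * md u)| ≤ 3 * j0 := by
    refine (Finset.abs_sum_le_sum_abs _ _).trans ?_
    have h3 : ∀ j ∈ Finset.range J, |(if j < j0 then 0 else ∫ u in (tt (3 * j))..(tt (3 * j + 3)), f u * md u) -
        ∫ u in (tt (3 * j))..(tt (3 * j + 3)), f u * md u| ≤ if j < j0 then 3 else 0 := by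
      intro j _
      obtain ⟨h4, h5⟩ := hslot j
      split_ifs
      · rw [zero_sub, abs_neg, abs_of_nonneg h4]
        exact h5
      · simp
    refine (Finset.sum_le_sum h3).trans ?_
    rw [← Finset.sum_filter, Finset.sum_const, nsmul_eq_mul]
    have h6 : ((Finset.range J).filter fun j => j < j0).card ≤ j0 := by
      have h7 : (Finset.range J).filter (fun j => j < j0) ⊆ Finset.range j0 := by
        intro j hj
        rw [Finset.mem_filter] at hj
        exact Finset.mem_range.2 hj.2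
      have := Finset.card_le_card h7
      rwa [Finset.card_range] at this
    have h8 : (((Finset.range J).filter fun j => j < j0).card : ℝ) ≤ j0 := by exact_mod_cast h6
    linarith
  have hsumI : ∑ j ∈ Finset.range J, ∫ u in (tt (3 * j))..(tt (3 * j + 3)), f u * md u =
      ∫ u in (1 : ℝ)..(tt (3 * J)), f u * md u := by
    have h1 := intervalIntegral.sum_integral_adjacent_intervals (a := fun j => tt (3 * j)) (n := J) (μ := volume)
      (f := fun u => f u * md u) (fun k _ => bmd_int hf hfb (tt_one_le _) (tt_one_le _))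
    simp only [mul_zero, tt_zero] at h1
    rw [← h1]
    rfl
  have a5 : |(∫ u in (1 : ℝ)..(tt (3 * J)), f u * md u) - ∫ u in (1 : ℝ)..x, f u * md u| ≤ 3 := by
    rw [abs_sub_comm, intervalIntegral.integral_interval_sub_left (bmd_int hf hfb le_rfl hx1')
      (bmd_int hf hfb le_rfl (tt_one_le _))]
    have h3 : 0 ≤ ∫ u in (tt (3 * J))..x, f u * md u := by
      refine intervalIntegral.integral_nonneg hJ1 fun u hu => ?_
      exact mul_nonneg (hf0 u) (md_nonneg ((tt_one_le _).trans hu.1))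
    have h4 := intervalIntegral.integral_mono_on hJ1 (bmd_int hf hfb (tt_one_le (3 * J)) hx1')
        (md_int (tt_one_le (3 * J)) hx1') (fun u hu => by
          exact mul_le_of_le_one_left (md_nonneg ((tt_one_le _).trans hu.1)) (hf1 u))
    rw [← MM_sub (tt_one_le _) hx1'] at h4
    have h5 := MM_le hx1' hJ2.le
    rw [MM_tt] at h4 h5
    push_cast at h4 h5
    rw [abs_of_nonneg h3]
    linarith
  have a6 : |(∫ u in (1 : ℝ)..x, f u * md u) - ∫ u in (2 : ℝ)..x, f u * md u| ≤ 1 := by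
    have h3 : (∫ u in (1 : ℝ)..x, f u * md u) - ∫ u in (2 : ℝ)..x, f u * md u = ∫ u in (1 : ℝ)..2, f u * md u := by
      rw [← intervalIntegral.integral_add_adjacent_intervals (bmd_int hf hfb le_rfl (by norm_num : (1 : ℝ) ≤ 2))
        (bmd_int hf hfb (by norm_num) hx1')]
      ring
    rw [h3]
    have h4 : 0 ≤ ∫ u in (1 : ℝ)..2, f u * md u := by
      refine intervalIntegral.integral_nonneg (by norm_num) fun u hu => ?_
      exact mul_nonneg (hf0 u) (md_nonneg hu.1)
    have h5 := intervalIntegral.integral_mono_on (by norm_num : (1 : ℝ) ≤ 2) (bmd_int hf hfb le_rfl (by norm_num))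
        (md_int le_rfl (by norm_num : (1 : ℝ) ≤ 2)) (fun u hu => by
          exact mul_le_of_le_one_left (md_nonneg hu.1) (hf1 u))
    rw [← MM_sub le_rfl (by norm_num)] at h5
    have h6 := MM_sub_le le_rfl (by norm_num : (1 : ℝ) ≤ 2)
    rw [abs_of_nonneg h4]
    linarith
  have a7 := int_cmp hf hfb hx
  rw [Finset.sum_sub_distrib] at a2 a3 a4
  rw [hsumI] at a4
  generalize ({n : ℕ | qs τ v n ≤ x ∧ qs τ v (n + 1) = qs τ v n + s ∧ qs τ v (n + 2) = qs τ v n + 6}.ncard : ℝ) = X0 at *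
  generalize ∑ j ∈ Finset.range J, cnt τ s j (v j) = X1 at *
  generalize ∑ j ∈ Finset.range J, ∫ y, cnt τ s j y ∂un = X2 at *
  generalize (∑ j ∈ Finset.range J, if j < j0 then (0 : ℝ) else ∫ u in (tt (3 * j))..(tt (3 * j + 3)), f u * md u) = X3 at *
  generalize (∫ u in (1 : ℝ)..(tt (3 * J)), f u * md u) = X4 at *
  generalize (∫ u in (1 : ℝ)..x, f u * md u) = X5 at *
  generalize (∫ u in (2 : ℝ)..x, f u * md u) = X6 at *
  generalize (∫ u in (2 : ℝ)..x, f u / Real.log u) = X7 at *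
  have hCx : C * (J : ℝ) ^ (1 / 2 + ε) ≤ C * x ^ (1 / 2 + ε) := mul_le_mul_of_nonneg_left hJp hC0
  have hj10 : (0 : ℝ) ≤ j1 := Nat.cast_nonneg j1
  have hj00 : (0 : ℝ) ≤ j0 := Nat.cast_nonneg j0
  have tot : |X0 - X7| ≤ (1 + 3 * j1) + C * (J : ℝ) ^ (1 / 2 + ε) + 1 + 3 * j0 + 3 + 1 + 4 * √x := by
    rw [abs_le] at *
    constructor <;> linarith [a1.1, a1.2, a2.1, a2.2, a3.1, a3.2, a4.1, a4.2, a5.1, a5.2, a6.1, a6.2, a7.1, a7.2]
  refine tot.trans ?_
  have hk : (1 + 3 * (j1 : ℝ)) + 1 + 3 * j0 + 3 + 1 ≤ ((1 + 3 * (j1 : ℝ)) + 1 + 3 * j0 + 3 + 1) * x ^ (1 / 2 + ε) :=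
    le_mul_of_one_le_right (by positivity) hx1
  nlinarith

end

end Pool.Agent.H73.TR
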