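import Pool.Agent.H73.TR.Ty
import Pool.Agent.H49.BP.DiscB

/-!
# The means of the tests and the twisted discrepancies
-/

set_option autoImplicit false

open MeasureTheory Filter Topology Set

namespace Pool.Agent.H73.TR

open Pool.Agent.H49.BP

theorem log_half' {t : ℝ} (ht : 2 ≤ t) : 1 / 2 ≤ Real.log t := by
  have h10 := Real.log_le_log (by norm_num) ht
  have h11 := Real.log_two_gt_d9
  linarith

/-- the density varies slowly -/
theorem md_lip {α u w : ℝ} (hα : 2 ≤ α) (hu : α ≤ u) (hw : α ≤ w) : |md u - md w| ≤ 5 * |u - w| / α := by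
  wlog h : w ≤ u generalizing u w with H
  · rw [abs_sub_comm, abs_sub_comm u w]
    exact H hw hu (le_of_not_ge h)
  rw [abs_of_nonneg (sub_nonneg.2 h)]
  have hw2 : 2 ≤ w := hα.trans hw
  have hu2 : 2 ≤ u := hα.trans hu
  have lw := log_half' hw2
  have lu := log_half' hu2
  have hl : Real.log u - Real.log w ≤ (u - w) / w := by
    rw [← Real.log_div (by linarith) (by linarith)]
    have := Real.log_le_sub_one_of_pos (x := u / w) (by positivity)
    refine this.trans (le_of_eq ?_)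
    field_simp
  have hl0 : 0 ≤ Real.log u - Real.log w := sub_nonneg.2 (Real.log_le_log (by linarith) h)
  have e : md u - md w = -((1 - w⁻¹) * ((Real.log u - Real.log w) / (Real.log u * Real.log w))) +
      (u - w) / (u * w) / Real.log u := by
    unfold md
    have h1 : Real.log u ≠ 0 := by linarith
    have h2 : Real.log w ≠ 0 := by linarith
    field_simp
    ring
  have a1 : (Real.log u - Real.log w) / (Real.log u * Real.log w) ≤ 4 * ((u - w) / w) := by
    rw [div_le_iff₀ (by nlinarith)]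
    have h3 : (1 : ℝ) / 4 ≤ Real.log u * Real.log w := by nlinarith
    have h4 : 0 ≤ (u - w) / w := div_nonneg (by linarith) (by linarith)
    nlinarith
  have a1' : 0 ≤ (Real.log u - Real.log w) / (Real.log u * Real.log w) :=
    div_nonneg hl0 (mul_nonneg (by linarith) (by linarith))
  have a2 : (u - w) / (u * w) / Real.log u ≤ (u - w) / w := by
    rw [div_div, div_le_div_iff₀ (by positivity) (by linarith)]
    have h5 : w ≤ u * w * Real.log u := by
      have : 1 ≤ u * Real.log u := by nlinarith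
      nlinarith
    exact mul_le_mul_of_nonneg_left h5 (by linarith)
  have a2' : 0 ≤ (u - w) / (u * w) / Real.log u :=
    div_nonneg (div_nonneg (by linarith) (by positivity)) (by linarith)
  have hwi : 0 ≤ 1 - w⁻¹ ∧ 1 - w⁻¹ ≤ 1 := by
    have : w⁻¹ ≤ 1 := inv_le_one_of_one_le₀ (by linarith)
    have h6 : 0 ≤ w⁻¹ := by positivity
    constructor <;> linarith
  have a3 : (1 - w⁻¹) * ((Real.log u - Real.log w) / (Real.log u * Real.log w)) ≤ 4 * ((u - w) / w) :=
    (mul_le_of_le_one_left a1' hwi.2).trans a1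
  have a3' := mul_nonneg hwi.1 a1'
  have a4 : (u - w) / w ≤ (u - w) / α := div_le_div_of_nonneg_left (by linarith) (by linarith) hw
  have e2 : 5 * (u - w) / α = 5 * ((u - w) / α) := by ring
  rw [e, e2, abs_le]
  constructor <;> linarith

theorem bmd_int {g : ℝ → ℝ} (hg : Measurable g) (hb : ∀ u, |g u| ≤ 1) {a b : ℝ} (ha : 1 ≤ a) (hb' : 1 ≤ b) :
    IntervalIntegrable (fun u => g u * md u) volume a b := by
  have h1 := md_int ha hb'
  refine h1.mono_fun (hg.mul md_meas).aestronglyMeasurable ?_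
  refine Eventually.of_forall fun u => ?_
  beta_reduce
  rw [norm_mul, Real.norm_eq_abs (g u)]
  exact mul_le_of_le_one_left (norm_nonneg _) (hb u)

/-- averages against the density and against the length -/
theorem avg_bd {g : ℝ → ℝ} (hg : Measurable g) (hb : ∀ u, |g u| ≤ 1) {α β : ℝ} (hα : 2 ≤ α) (hβ : α < β) :
    |(MM β - MM α) * (β - α)⁻¹ * (∫ y in α..β, g y) - ∫ y in α..β, g y * md y| ≤ 5 * (β - α) ^ 2 / α := by
  set c := (MM β - MM α) * (β - α)⁻¹ with hc
  have hβα : 0 < β - α := by linarith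
  have hmd := md_int (a := α) (b := β) (by linarith) (by linarith)
  have hcu : ∀ u ∈ Icc α β, |c - md u| ≤ 5 * (β - α) / α := by
    intro u hu
    have h1 : MM β - MM α - (β - α) * md u = ∫ y in α..β, (md y - md u) := by
      rw [intervalIntegral.integral_sub hmd intervalIntegrable_const, intervalIntegral.integral_const, smul_eq_mul,
        MM_sub (by linarith) (by linarith)]
    have h2 : |∫ y in α..β, (md y - md u)| ≤ 5 * (β - α) / α * |β - α| := by
      rw [← Real.norm_eq_abs]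
      refine intervalIntegral.norm_integral_le_of_norm_le_const fun y hy => ?_
      rw [uIoc_of_le hβ.le] at hy
      rw [Real.norm_eq_abs]
      refine (md_lip hα hy.1.le hu.1).trans ?_
      have : |y - u| ≤ β - α := by
        rw [abs_le]
        constructor <;> linarith [hy.1, hy.2, hu.1, hu.2]
      exact div_le_div_of_nonneg_right (by linarith) (by linarith)
    have h3 : c - md u = (MM β - MM α - (β - α) * md u) * (β - α)⁻¹ := by
      rw [hc]
      field_simp
    rw [h3, h1, abs_mul, abs_of_pos (inv_pos.2 hβα), ← div_eq_mul_inv, div_le_iff₀ hβα]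
    rw [abs_of_pos hβα] at h2
    exact h2
  have h4 : c * (∫ y in α..β, g y) - ∫ y in α..β, g y * md y = ∫ y in α..β, g y * (c - md y) := by
    rw [← intervalIntegral.integral_const_mul, ← intervalIntegral.integral_sub
      ((bint hg hb α β).const_mul c) (bmd_int hg hb (by linarith) (by linarith))]
    refine intervalIntegral.integral_congr fun y _ => ?_
    beta_reduce
    ring
  rw [h4, ← Real.norm_eq_abs]
  have h5 : ‖∫ y in α..β, g y * (c - md y)‖ ≤ 5 * (β - α) / α * |β - α| := by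
    refine intervalIntegral.norm_integral_le_of_norm_le_const fun y hy => ?_
    rw [uIoc_of_le hβ.le] at hy
    rw [norm_mul, Real.norm_eq_abs, Real.norm_eq_abs]
    calc |g y| * |c - md y| ≤ 1 * (5 * (β - α) / α) :=
          mul_le_mul (hb y) (hcu y ⟨hy.1.le, hy.2⟩) (abs_nonneg _) zero_le_one
      _ = _ := one_mul _
  refine h5.trans (le_of_eq ?_)
  rw [abs_of_pos hβα]
  ring

theorem len_le {j : ℕ} (hj : 1 ≤ j) : len j ≤ 78 * Real.log (tt (3 * j)) := by
  have h0 := slot_le (j := 3 * j) (by omega)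
  have h1 := slot_le (j := 3 * j + 1) (by omega)
  have h2 := slot_le (j := 3 * j + 2) (by omega)
  have l0 := log_tt_succ_le (j := 3 * j) (by omega)
  have l1 := log_tt_succ_le (j := 3 * j + 1) (by omega)
  have e1 : 3 * j + 1 + 1 = 3 * j + 2 := rfl
  have e2 : 3 * j + 2 + 1 = 3 * j + 3 := rfl
  rw [e1] at h1 l1
  rw [e2] at h2
  unfold len
  linarith

theorem len_sq {j : ℕ} (hj : 1 ≤ j) : 5 * (len j) ^ 2 / tt (3 * j) ≤ 486720 / √((j : ℝ) + 1) := by
  set x := tt (3 * j) with hx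
  have hx1 : ((3 * j : ℕ) : ℝ) + 1 ≤ x := tt_ge _
  have hj0 : (0 : ℝ) ≤ j := Nat.cast_nonneg j
  have hxj : (j : ℝ) + 1 ≤ x := by
    push_cast at hx1
    linarith
  have hx0 : 0 < x := by linarith
  have h1 : len j ≤ 78 * Real.log x := len_le hj
  have h2 : Real.log x ≤ 4 * √(√x) := by
    have h3 : Real.log x = 4 * Real.log (√(√x)) := by
      rw [Real.log_sqrt (Real.sqrt_nonneg x), Real.log_sqrt hx0.le]
      ring
    have h4 := Real.log_le_sub_one_of_pos (x := √(√x)) (by positivity)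
    linarith
  have h5 : len j ≤ 312 * √(√x) := by linarith
  have h6 : (len j) ^ 2 ≤ 97344 * √x := by
    calc (len j) ^ 2 ≤ (312 * √(√x)) ^ 2 := pow_le_pow_left₀ (len_pos j).le h5 2
      _ = 97344 * (√(√x)) ^ 2 := by ring
      _ = 97344 * √x := by rw [Real.sq_sqrt (Real.sqrt_nonneg x)]
  have hs : √x * √x = x := Real.mul_self_sqrt hx0.le
  have hsx : 0 < √x := Real.sqrt_pos.2 hx0
  have hsj : 0 < √((j : ℝ) + 1) := Real.sqrt_pos.2 (by linarith)
  have h7 : 5 * (len j) ^ 2 / x ≤ 486720 / √x := by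
    rw [div_le_div_iff₀ hx0 hsx]
    have h8 : (len j) ^ 2 * √x ≤ 97344 * √x * √x := mul_le_mul_of_nonneg_right h6 hsx.le
    nlinarith
  exact h7.trans (div_le_div_of_nonneg_left (by norm_num) hsj (Real.sqrt_le_sqrt hxj))

/-- the mean of a test over a slot -/
theorem mean_bd {s j : ℕ} (hs : Good s j) {g : ℝ → ℝ} (hg : Measurable g) (hb : ∀ u, |g u| ≤ 1) :
    |∫ v, ssum s j g v ∂un - ∫ y in (tt (3 * j))..(tt (3 * j + 3)), g y * md y| ≤ 1460160 / √((j : ℝ) + 1) := by
  rcases Nat.eq_zero_or_pos j with hj | hj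
  · -- the first slot
    subst hj
    have h1 : |∫ v, ssum s 0 g v ∂un| ≤ 3 := by
      have h1 := norm_integral_le_of_norm_le_const (μ := un) (f := ssum s 0 g) (C := 3)
        (Eventually.of_forall fun x => by rw [Real.norm_eq_abs]; exact ssum_abs s 0 hb x)
      simpa using h1
    have h2 : |∫ y in (tt (3 * 0))..(tt (3 * 0 + 3)), g y * md y| ≤ 3 := by
      have h3 : ‖∫ y in (tt (3 * 0))..(tt (3 * 0 + 3)), g y * md y‖ ≤
          ∫ y in (tt (3 * 0))..(tt (3 * 0 + 3)), md y := by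
        refine intervalIntegral.norm_integral_le_of_norm_le (tt_mono.monotone (by omega))
          (Eventually.of_forall fun u hu => ?_) (md_int (tt_one_le _) (tt_one_le _))
        have hu1 : 1 ≤ u := (tt_one_le _).trans hu.1.le
        rw [norm_mul, Real.norm_eq_abs, Real.norm_of_nonneg (md_nonneg hu1)]
        exact mul_le_of_le_one_left (md_nonneg hu1) (hb u)
      rw [← MM_sub (tt_one_le _) (tt_one_le _), MM_tt, MM_tt, Real.norm_eq_abs] at h3
      push_cast at h3
      linarith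
    have h4 := abs_sub (∫ v, ssum s 0 g v ∂un) (∫ y in (tt (3 * 0))..(tt (3 * 0 + 3)), g y * md y)
    norm_num
    norm_num at h1 h2 h4
    linarith
  have hj1 : 1 ≤ j := hj
  have hq := len_sq hj1
  have h486 : (0 : ℝ) ≤ 486720 / √((j : ℝ) + 1) := by positivity
  have e3 : (1460160 : ℝ) / √((j : ℝ) + 1) = 3 * (486720 / √((j : ℝ) + 1)) := by ring
  rw [e3]
  have h2 : 2 ≤ tt (3 * j) := tt_two (by omega)
  rcases hs with rfl | ⟨hs, hl⟩
  · rw [mean_zero j hg hb]
    have hsum : ∫ y in (tt (3 * j))..(tt (3 * j + 3)), g y * md y =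
        ∑ i ∈ Finset.range 3, ∫ y in (tt (3 * j + i))..(tt (3 * j + i + 1)), g y * md y := by
      have h3 := intervalIntegral.sum_integral_adjacent_intervals (a := fun i => tt (3 * j + i)) (n := 3)
        (μ := volume) (f := fun u => g u * md u) (fun k _ => bmd_int hg hb (tt_one_le _) (tt_one_le _))
      simp only [add_zero] at h3
      rw [← h3]
      rfl
    rw [hsum, ← Finset.sum_sub_distrib]
    refine (Finset.abs_sum_le_sum_abs _ _).trans ?_
    have h3 : ∀ i ∈ Finset.range 3, |(tt (3 * j + i + 1) - tt (3 * j + i))⁻¹ *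
        (∫ y in (tt (3 * j + i))..(tt (3 * j + i + 1)), g y) -
        ∫ y in (tt (3 * j + i))..(tt (3 * j + i + 1)), g y * md y| ≤ 486720 / √((j : ℝ) + 1) := by
      intro i hi
      rw [Finset.mem_range] at hi
      have h4 : 2 ≤ tt (3 * j + i) := tt_two (by omega)
      have h5 := avg_bd hg hb h4 (tt_lt (3 * j + i))
      have h6 : MM (tt (3 * j + i + 1)) - MM (tt (3 * j + i)) = 1 := by
        rw [MM_tt, MM_tt]
        push_cast
        ring
      rw [h6, one_mul] at h5
      refine h5.trans (le_trans ?_ hq)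
      have h7 : tt (3 * j) ≤ tt (3 * j + i) := tt_mono.monotone (by omega)
      have h8 : tt (3 * j + i + 1) ≤ tt (3 * j + 3) := tt_mono.monotone (by omega)
      have h9 := tt_lt (3 * j + i)
      have h10 : tt (3 * j + i + 1) - tt (3 * j + i) ≤ len j := by
        unfold len
        linarith
      have h11 : (tt (3 * j + i + 1) - tt (3 * j + i)) ^ 2 ≤ (len j) ^ 2 :=
        pow_le_pow_left₀ (by linarith) h10 2
      exact div_le_div₀ (by positivity) (by linarith) (by linarith) h7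
    refine (Finset.sum_le_sum h3).trans ?_
    rw [Finset.sum_const, Finset.card_range, nsmul_eq_mul]
    norm_num
  · rw [mean_rot hs hl hg hb]
    have h5 := avg_bd hg hb h2 (tt_mono (show 3 * j < 3 * j + 3 by omega))
    have h6 : MM (tt (3 * j + 3)) - MM (tt (3 * j)) = 3 := by
      rw [MM_tt, MM_tt]
      push_cast
      ring
    rw [h6] at h5
    have e : tt (3 * j + 3) - tt (3 * j) = len j := rfl
    rw [e] at h5
    linarith

theorem sum_inv_sqrt (J : ℕ) : ∑ j ∈ Finset.range J, 1 / √((j : ℝ) + 1) ≤ 2 * √(J : ℝ) := by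
  induction J with
  | zero => simp
  | succ J ih =>
    rw [Finset.sum_range_succ]
    push_cast
    have hJ : (0 : ℝ) ≤ J := Nat.cast_nonneg J
    have hp : 0 < √((J : ℝ) + 1) := Real.sqrt_pos.2 (by linarith)
    have h1 : √(J : ℝ) * √(J : ℝ) = J := Real.mul_self_sqrt hJ
    have h2 : √((J : ℝ) + 1) * √((J : ℝ) + 1) = J + 1 := Real.mul_self_sqrt (by linarith)
    have h3 : 1 / √((J : ℝ) + 1) ≤ 2 * √((J : ℝ) + 1) - 2 * √(J : ℝ) := by
      rw [div_le_iff₀ hp]
      nlinarith [sq_nonneg (√((J : ℝ) + 1) - √(J : ℝ))]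
    linarith

/-! ### The sequence -/

/-- the system -/
noncomputable def qs (τ : ℕ → ℕ) (v : ℕ → ℝ) (n : ℕ) : ℝ := pts (τ (n / 3)) (n / 3) (v (n / 3)) (n % 3)

section
variable {τ : ℕ → ℕ} (hτ : ∀ j, Good (τ j) j) {v : ℕ → ℝ} (hv : ∀ j, v j ∈ Ioc (0 : ℝ) 1)

theorem qs_eq (τ : ℕ → ℕ) (v : ℕ → ℝ) (j : ℕ) {i : ℕ} (hi : i < 3) : qs τ v (3 * j + i) = pts (τ j) j (v j) i := by
  unfold qs
  have h1 : (3 * j + i) / 3 = j := by omega
  have h2 : (3 * j + i) % 3 = i := by omega
  rw [h1, h2]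

include hτ hv

theorem qs_slot (j : ℕ) {i : ℕ} (hi : i < 3) : tt (3 * j) < qs τ v (3 * j + i) ∧
    qs τ v (3 * j + i) ≤ tt (3 * j + 3) := by
  rw [qs_eq τ v j hi]
  obtain ⟨h1, h2, h3, h4⟩ := pts_order (hτ j) (hv j)
  interval_cases i
  · exact ⟨h1, by linarith⟩
  · exact ⟨by linarith, by linarith⟩
  · exact ⟨by linarith, h4⟩

theorem qs_mono : StrictMono (qs τ v) := by
  refine strictMono_nat_of_lt_succ fun n => ?_
  obtain ⟨j, i, hi, rfl⟩ : ∃ j i, i < 3 ∧ n = 3 * j + i := ⟨n / 3, n % 3, Nat.mod_lt _ (by norm_num), by omega⟩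
  obtain ⟨h1, h2, h3, h4⟩ := pts_order (hτ j) (hv j)
  interval_cases i
  · rw [show 3 * j + 0 + 1 = 3 * j + 1 by ring, qs_eq τ v j (by norm_num), qs_eq τ v j (by norm_num)]
    exact h2
  · rw [show 3 * j + 1 + 1 = 3 * j + 2 by ring, qs_eq τ v j (by norm_num), qs_eq τ v j (by norm_num)]
    exact h3
  · have h5 := (qs_slot hτ hv (j + 1) (i := 0) (by norm_num)).1
    rw [show 3 * j + 2 + 1 = 3 * (j + 1) + 0 by ring, qs_eq τ v j (by norm_num)]
    have h6 : 3 * (j + 1) = 3 * j + 3 := by ring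
    rw [h6] at h5 ⊢
    linarith

theorem qs_ge (n : ℕ) : (n : ℝ) + 1 ≤ qs τ v n := by
  obtain ⟨j, i, hi, rfl⟩ : ∃ j i, i < 3 ∧ n = 3 * j + i := ⟨n / 3, n % 3, Nat.mod_lt _ (by norm_num), by omega⟩
  rw [qs_eq τ v j hi]
  exact pts_ge (hτ j) (hv j) hi

theorem qs_zero : 1 < qs τ v 0 := by
  have := (qs_slot hτ hv 0 (i := 0) (by norm_num)).1
  rw [show 3 * 0 = 0 by norm_num, tt_zero] at this
  exact this

theorem pc_slot {x : ℝ} {J : ℕ} (h1 : tt (3 * J) ≤ x) (h2 : x < tt (3 * J + 3)) :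
    3 * J ≤ pc (qs τ v) x ∧ pc (qs τ v) x ≤ 3 * J + 3 := by
  have hm := qs_mono hτ hv
  have hg := qs_ge hτ hv
  constructor
  · by_contra h
    push Not at h
    set n := pc (qs τ v) x with hn
    obtain ⟨j, i, hi, hji⟩ : ∃ j i, i < 3 ∧ n = 3 * j + i := ⟨n / 3, n % 3, Nat.mod_lt _ (by norm_num), by omega⟩
    have h3 := (qs_slot hτ hv j hi).2
    have h4 : tt (3 * j + 3) ≤ tt (3 * J) := tt_mono.monotone (by omega)
    have h5 : n < pc (qs τ v) x := (lt_pc hm hg x n).2 (by rw [hji]; linarith)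
    omega
  · by_contra h
    push Not at h
    have h3 := (lt_pc hm hg x (3 * J + 3)).1 h
    have h4 := (qs_slot hτ hv (J + 1) (i := 0) (by norm_num)).1
    rw [show 3 * (J + 1) = 3 * J + 3 by ring, add_zero] at h4
    linarith

end

theorem sum_slots {M : Type*} [AddCommMonoid M] (f : ℕ → M) (J : ℕ) :
    ∑ n ∈ Finset.range (3 * J), f n = ∑ j ∈ Finset.range J, (f (3 * j) + f (3 * j + 1) + f (3 * j + 2)) := by
  induction J with
  | zero => simp
  | succ J ih =>
    rw [Finset.sum_range_succ, ← ih, show 3 * (J + 1) = 3 * J + 1 + 1 + 1 by ring, Finset.sum_range_succ,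
      Finset.sum_range_succ, Finset.sum_range_succ]
    simp only [add_assoc]

theorem em_ph (m : ℤ) (x : ℝ) : em m x = ((ph m true x : ℝ) : ℂ) - ((ph m false x : ℝ) : ℂ) * Complex.I := by
  simp [H49.BP.em, ph]

theorem exists_slot3 {x : ℝ} (hx : 1 ≤ x) : ∃ J : ℕ, tt (3 * J) ≤ x ∧ x < tt (3 * J + 3) := by
  obtain ⟨n, h1, h2⟩ := exists_slot hx
  refine ⟨n / 3, (tt_mono.monotone (by omega)).trans h1, h2.trans_le (tt_mono.monotone (by omega))⟩

/-- the sums of the tests are close to the integrals -/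
def Near (τ : ℕ → ℕ) (v : ℕ → ℝ) : Prop := ∀ δ : ℝ, 0 < δ → ∃ C : ℝ, 0 ≤ C ∧ ∀ (m : ℤ) (b : Bool) (J : ℕ),
  |∑ j ∈ Finset.range J, (ssum (τ j) j (ph m b) (v j) - ∫ y, ssum (τ j) j (ph m b) y ∂un)| ≤
    C * (J : ℝ) ^ (1 / 2 + δ) * √(Real.log (|(m : ℝ)| + 3))

theorem disc_qs {τ : ℕ → ℕ} (hτ : ∀ j, Good (τ j) j) {v : ℕ → ℝ} (hv : ∀ j, v j ∈ Ioc (0 : ℝ) 1)
    (hN : Near τ v) : Disc (qs τ v) := by
  intro δ hδ
  obtain ⟨C, hC0, hC⟩ := hN δ hδ
  refine ⟨2 * C + 2 * 2920320 + 6, by positivity, fun m x hx => ?_⟩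
  obtain ⟨J, hJ1, hJ2⟩ := exists_slot3 hx
  have hsL : 1 ≤ √(Real.log (|(m : ℝ)| + 3)) := Real.one_le_sqrt.2 (L_ge m)
  set L := √(Real.log (|(m : ℝ)| + 3)) with hL
  have hx0 : 0 < x := by linarith
  have hxs : √x ≤ x ^ (1 / 2 + δ) := by
    rw [Real.sqrt_eq_rpow]
    exact Real.rpow_le_rpow_of_exponent_le hx (by linarith)
  have hx1 : 1 ≤ x ^ (1 / 2 + δ) := Real.one_le_rpow hx (by linarith)
  have hJx : (J : ℝ) ≤ x := by
    have := tt_ge (3 * J)
    push_cast at this
    have hJ0 : (0 : ℝ) ≤ J := Nat.cast_nonneg J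
    linarith
  obtain ⟨hp1, hp2⟩ := pc_slot hτ hv hJ1 hJ2
  have d1 : ‖AA (qs τ v) m x - ∑ j ∈ Finset.range (3 * J), em m (qs τ v j)‖ ≤ 3 := by
    unfold AA
    refine (sum_range_diff (fun j => (em_norm m _).le) _ _).trans ?_
    have h1 : ((3 * J : ℕ) : ℝ) ≤ pc (qs τ v) x := by exact_mod_cast hp1
    have h2 : (pc (qs τ v) x : ℝ) ≤ ((3 * J + 3 : ℕ) : ℝ) := by exact_mod_cast hp2
    push_cast at h1 h2 ⊢
    rw [abs_le]
    constructor <;> linarith
  have d4 : ‖BB m (tt (3 * J)) - BB m x‖ ≤ 3 := by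
    have hi1 := mdg_int (g := em m) (em_meas m) (fun u => (em_norm m u).le) le_rfl (tt_one_le (3 * J))
    have hi2 := mdg_int (g := em m) (em_meas m) (fun u => (em_norm m u).le) le_rfl hx
    have h1 : BB m x - BB m (tt (3 * J)) = ∫ u in (tt (3 * J))..x, em m u * (md u : ℂ) := by
      unfold BB
      exact intervalIntegral.integral_interval_sub_left hi2 hi1
    rw [norm_sub_rev, h1]
    have h2 : ‖∫ u in (tt (3 * J))..x, em m u * (md u : ℂ)‖ ≤ ∫ u in (tt (3 * J))..x, md u := by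
      refine intervalIntegral.norm_integral_le_of_norm_le hJ1 (Eventually.of_forall fun u hu => ?_)
        (md_int (tt_one_le _) hx)
      have hu1 : 1 ≤ u := (tt_one_le _).trans hu.1.le
      rw [norm_mul, em_norm, one_mul, Complex.norm_real, Real.norm_of_nonneg (md_nonneg hu1)]
    refine h2.trans ?_
    rw [← MM_sub (tt_one_le _) hx]
    have h3 := MM_le hx hJ2.le
    rw [MM_tt] at h3 ⊢
    push_cast at h3 ⊢
    linarith
  -- the main sums
  have key : ∀ b : Bool, |∑ j ∈ Finset.range J, (ssum (τ j) j (ph m b) (v j) -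
      ∫ y in (tt (3 * j))..(tt (3 * j + 3)), ph m b y * md y)| ≤
      C * x ^ (1 / 2 + δ) * L + 2920320 * x ^ (1 / 2 + δ) := by
    intro b
    have h1 := hC m b J
    have h2 : |∑ j ∈ Finset.range J, (∫ y, ssum (τ j) j (ph m b) y ∂un -
        ∫ y in (tt (3 * j))..(tt (3 * j + 3)), ph m b y * md y)| ≤ 2920320 * √(J : ℝ) := by
      refine (Finset.abs_sum_le_sum_abs _ _).trans ?_
      refine (Finset.sum_le_sum fun j _ => mean_bd (hτ j) (ph_meas m b) (ph_abs m b)).trans ?_
      have h3 := sum_inv_sqrt J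
      have e : ∑ j ∈ Finset.range J, (1460160 : ℝ) / √((j : ℝ) + 1) =
          1460160 * ∑ j ∈ Finset.range J, 1 / √((j : ℝ) + 1) := by
        rw [Finset.mul_sum]
        exact Finset.sum_congr rfl fun j _ => by ring
      rw [e]
      linarith
    have h3 : ∑ j ∈ Finset.range J, (ssum (τ j) j (ph m b) (v j) -
        ∫ y in (tt (3 * j))..(tt (3 * j + 3)), ph m b y * md y) =
        ∑ j ∈ Finset.range J, (ssum (τ j) j (ph m b) (v j) - ∫ y, ssum (τ j) j (ph m b) y ∂un) +
        ∑ j ∈ Finset.range J, (∫ y, ssum (τ j) j (ph m b) y ∂un -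
          ∫ y in (tt (3 * j))..(tt (3 * j + 3)), ph m b y * md y) := by
      rw [← Finset.sum_add_distrib]
      exact Finset.sum_congr rfl fun j _ => by ring
    rw [h3]
    refine (abs_add_le _ _).trans (add_le_add (h1.trans ?_) (h2.trans ?_))
    · have h4 : (J : ℝ) ^ (1 / 2 + δ) ≤ x ^ (1 / 2 + δ) := Real.rpow_le_rpow (Nat.cast_nonneg J) hJx (by linarith)
      gcongr
    · have h4 : √(J : ℝ) ≤ √x := Real.sqrt_le_sqrt hJx
      linarith
  have hsumI : ∑ j ∈ Finset.range J, ∫ u in (tt (3 * j))..(tt (3 * j + 3)), em m u * (md u : ℂ) =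
      BB m (tt (3 * J)) := by
    unfold BB
    have h1 := intervalIntegral.sum_integral_adjacent_intervals (a := fun j => tt (3 * j)) (n := J) (μ := volume)
      (f := fun u => em m u * (md u : ℂ)) (fun k _ => mdg_int (em_meas m) (fun u => (em_norm m u).le)
        (tt_one_le _) (tt_one_le _))
    simp only [mul_zero, tt_zero] at h1
    rw [← h1]
    rfl
  have hslot : ∀ j, ∫ u in (tt (3 * j))..(tt (3 * j + 3)), em m u * (md u : ℂ) =
      ((∫ y in (tt (3 * j))..(tt (3 * j + 3)), ph m true y * md y : ℝ) : ℂ) -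
      ((∫ y in (tt (3 * j))..(tt (3 * j + 3)), ph m false y * md y : ℝ) : ℂ) * Complex.I := by
    intro j
    rw [← intervalIntegral.integral_ofReal, ← intervalIntegral.integral_ofReal,
      ← intervalIntegral.integral_mul_const, ← intervalIntegral.integral_sub]
    · refine intervalIntegral.integral_congr fun u _ => ?_
      beta_reduce
      rw [em_ph]
      push_cast
      ring
    · have h := bmd_int (ph_meas m true) (ph_abs m true) (tt_one_le (3 * j)) (tt_one_le (3 * j + 3))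
      exact (⟨h.1.ofReal, h.2.ofReal⟩ : IntervalIntegrable (fun u => ((ph m true u * md u : ℝ) : ℂ)) volume _ _)
    · have h := bmd_int (ph_meas m false) (ph_abs m false) (tt_one_le (3 * j)) (tt_one_le (3 * j + 3))
      have h' : IntervalIntegrable (fun u => ((ph m false u * md u : ℝ) : ℂ)) volume (tt (3 * j)) (tt (3 * j + 3)) :=
        ⟨h.1.ofReal, h.2.ofReal⟩
      exact IntervalIntegrable.mul_const h' _
  have d3 : ‖∑ j ∈ Finset.range (3 * J), em m (qs τ v j) - BB m (tt (3 * J))‖ ≤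
      2 * (C * x ^ (1 / 2 + δ) * L + 2920320 * x ^ (1 / 2 + δ)) := by
    have e : ∑ j ∈ Finset.range (3 * J), em m (qs τ v j) - BB m (tt (3 * J)) =
        ((∑ j ∈ Finset.range J, (ssum (τ j) j (ph m true) (v j) -
          ∫ y in (tt (3 * j))..(tt (3 * j + 3)), ph m true y * md y) : ℝ) : ℂ) -
        ((∑ j ∈ Finset.range J, (ssum (τ j) j (ph m false) (v j) -
          ∫ y in (tt (3 * j))..(tt (3 * j + 3)), ph m false y * md y) : ℝ) : ℂ) * Complex.I := by
      rw [sum_slots, ← hsumI, ← Finset.sum_sub_distrib]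
      push_cast
      rw [Finset.sum_mul, ← Finset.sum_sub_distrib]
      refine Finset.sum_congr rfl fun j _ => ?_
      have e0 : qs τ v (3 * j) = pts (τ j) j (v j) 0 := qs_eq τ v j (i := 0) (by norm_num)
      rw [hslot, e0, qs_eq τ v j (by norm_num), qs_eq τ v j (by norm_num), em_ph, em_ph, em_ph]
      unfold ssum
      push_cast
      ring
    rw [e]
    refine (norm_sub_le _ _).trans ?_
    rw [norm_mul, Complex.norm_I, mul_one, Complex.norm_real, Complex.norm_real, Real.norm_eq_abs, Real.norm_eq_abs]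
    have k1 := key true
    have k2 := key false
    linarith
  have hfin : AA (qs τ v) m x - BB m x = (AA (qs τ v) m x - ∑ j ∈ Finset.range (3 * J), em m (qs τ v j)) +
      (∑ j ∈ Finset.range (3 * J), em m (qs τ v j) - BB m (tt (3 * J))) + (BB m (tt (3 * J)) - BB m x) := by ring
  rw [hfin]
  refine (norm_add_le _ _).trans ?_
  refine (add_le_add ((norm_add_le _ _).trans (add_le_add d1 d3)) d4).trans ?_
  have e1 : x ^ (1 / 2 + δ) ≤ x ^ (1 / 2 + δ) * L := le_mul_of_one_le_right (by positivity) hsL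
  have e2 : 1 ≤ x ^ (1 / 2 + δ) * L := hx1.trans e1
  calc 3 + 2 * (C * x ^ (1 / 2 + δ) * L + 2920320 * x ^ (1 / 2 + δ)) + 3
      ≤ 6 * (x ^ (1 / 2 + δ) * L) + 2 * (C * (x ^ (1 / 2 + δ) * L) + 2920320 * (x ^ (1 / 2 + δ) * L)) := by
        rw [mul_assoc C]
        linarith
    _ = _ := by ring

end Pool.Agent.H73.TR
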