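import Pool.Agent.H49.BP.Samp

/-!
# A choice of parameters that is good for countably many tests and avoids null sets
-/

set_option autoImplicit false

open MeasureTheory Filter Topology Set
open scoped ENNReal

namespace Pool.Agent.H73.TR

open Pool.Agent.H49.BP

/-- the uniform distribution on the unit interval -/
noncomputable def un : Measure ℝ := volume.restrict (Ioc 0 1)

instance : IsProbabilityMeasure un := by
  constructor
  unfold un
  rw [Measure.restrict_apply_univ, Real.volume_Ioc]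
  norm_num

theorem un_compl : un (Ioc (0 : ℝ) 1)ᶜ = 0 := by
  unfold un
  rw [Measure.restrict_apply measurableSet_Ioc.compl, compl_inter_self, measure_empty]

theorem un_null {N : Set ℝ} (h : N.Countable) : un N = 0 :=
  le_antisymm ((Measure.restrict_le_self _).trans (h.measure_zero volume).le) zero_le

section
variable {P : Type} [Countable P] (Y : ℕ → P → ℝ → ℝ) (a v : P → ℝ)

theorem step' (N : ℕ → ℝ → Set ℝ) (hN : ∀ j y, un (N j y) = 0)
    (hYm : ∀ j p, Measurable (Y j p)) (hYb : ∀ j p x, |Y j p x| ≤ 1)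
    (hY0 : ∀ j p, ∫ x, Y j p x ∂un = 0) (ha : ∀ p, 0 ≤ a p) (ha1 : ∀ p, a p ≤ 1) (J : ℕ) (S : P → ℝ) (y : ℝ) :
    ∃ x ∈ Ioc (0 : ℝ) 1 \ N J y, pot a v (J + 1) (fun p => S p + Y J p x) ≤ pot a v J S := by
  refine step (fun _ => un) (fun j => Ioc (0 : ℝ) 1 \ N j y) Y a v (fun j => ?_) hYm hYb hY0 ha ha1 J S
  rw [sdiff_eq, compl_inter, compl_compl]
  exact measure_union_null un_compl (hN j y)

/-- the greedy choice that avoids null sets depending on the previous choice -/
theorem greedy1 (N : ℕ → ℝ → Set ℝ) (hN : ∀ j y, un (N j y) = 0)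
    (hYm : ∀ j p, Measurable (Y j p)) (hYb : ∀ j p x, |Y j p x| ≤ 1)
    (hY0 : ∀ j p, ∫ x, Y j p x ∂un = 0) (ha : ∀ p, 0 ≤ a p) (ha1 : ∀ p, a p ≤ 1)
    (hv : ∀ p, 0 < v p) (hvs : Summable v) :
    ∃ q : ℕ → ℝ, (∀ j, q j ∈ Ioc (0 : ℝ) 1) ∧ (∀ j, q (j + 1) ∉ N (j + 1) (q j)) ∧ ∀ (J : ℕ) (p : P),
      a p * ∑ j ∈ Finset.range J, Y j p (q j) ≤ (a p) ^ 2 * J + Real.log ((∑' p, v p) / v p) := by
  choose ch hch1 hch2 using step' Y a v N hN hYm hYb hY0 ha ha1
  let st : ℕ → (P → ℝ) × ℝ := fun J => Nat.rec (fun _ => 0, 0)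
    (fun J s => (fun p => s.1 p + Y J p (ch J s.1 s.2), ch J s.1 s.2)) J
  let q : ℕ → ℝ := fun J => ch J (st J).1 (st J).2
  have hS0 : (st 0).1 = fun _ => 0 := rfl
  have hS1 : ∀ J, (st (J + 1)).1 = fun p => (st J).1 p + Y J p (q J) := fun J => rfl
  have hS2 : ∀ J, (st (J + 1)).2 = q J := fun J => rfl
  have hpot : ∀ J, pot a v J (st J).1 ≤ ENNReal.ofReal (∑' p, v p) := by
    intro J
    induction J with
    | zero =>
      rw [hS0]
      unfold pot
      simp only [mul_zero, Nat.cast_zero, sub_zero, Real.exp_zero, mul_one]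
      rw [ENNReal.ofReal_tsum_of_nonneg (fun p => (hv p).le) hvs]
    | succ J ih =>
      rw [hS1]
      exact (hch2 J (st J).1 (st J).2).trans ih
  refine ⟨q, fun j => (hch1 j _ _).1, fun j => ?_, fun J p => ?_⟩
  · have := (hch1 (j + 1) (st (j + 1)).1 (st (j + 1)).2).2
    rw [hS2 j] at this
    exact this
  have hsum : ∀ J p, (st J).1 p = ∑ j ∈ Finset.range J, Y j p (q j) := by
    intro J p
    induction J with
    | zero => simp [hS0]
    | succ J ih => rw [hS1, Finset.sum_range_succ, ← ih]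
  rw [← hsum]
  have h1 : ENNReal.ofReal (v p * Real.exp (a p * (st J).1 p - (a p) ^ 2 * J)) ≤ ENNReal.ofReal (∑' p, v p) :=
    (ENNReal.le_tsum p).trans (hpot J)
  have hW : 0 < ∑' p, v p := hvs.tsum_pos (fun p => (hv p).le) p (hv p)
  rw [ENNReal.ofReal_le_ofReal_iff hW.le] at h1
  have h2 : Real.exp (a p * (st J).1 p - (a p) ^ 2 * J) ≤ (∑' p, v p) / v p := by
    rw [le_div_iff₀ (hv p)]
    linarith
  have h3 := Real.log_le_log (Real.exp_pos _) h2
  rw [Real.log_exp] at h3
  linarith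

end

section
variable {κ : Type} [Countable κ] (T : ℕ → κ → ℝ → ℝ) (w : κ → ℝ)

/-- the centred tests -/
noncomputable def Yt (j : ℕ) (p : κ × Bool × ℕ) (x : ℝ) : ℝ :=
  sgn p.2.1 * ((T j p.1 x - ∫ y, T j p.1 y ∂un) / 6)

/-- the weights -/
noncomputable def wgt (p : κ × Bool × ℕ) : ℝ := 1 / (w p.1 + 3) ^ 2 * (1 / 2) ^ p.2.2

/-- **Derandomisation.** -/
theorem derand (hw : ∀ k, 0 ≤ w k) (hws : Summable fun k => 1 / (w k + 3) ^ 2)
    (hTm : ∀ j k, Measurable (T j k)) (hTb : ∀ j k x, |T j k x| ≤ 3)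
    (N : ℕ → ℝ → Set ℝ) (hN : ∀ j y, un (N j y) = 0) :
    ∃ q : ℕ → ℝ, (∀ j, q j ∈ Ioc (0 : ℝ) 1) ∧ (∀ j, q (j + 1) ∉ N (j + 1) (q j)) ∧ ∀ δ : ℝ, 0 < δ →
      ∃ C : ℝ, 0 ≤ C ∧ ∀ (k : κ) (J : ℕ), |∑ j ∈ Finset.range J, (T j k (q j) - ∫ y, T j k y ∂un)| ≤
        C * (J : ℝ) ^ (1 / 2 + δ) * √(Real.log (w k + 3)) := by
  have hmean : ∀ j k, |∫ y, T j k y ∂un| ≤ 3 := by
    intro j k
    have h1 := norm_integral_le_of_norm_le_const (μ := un) (f := T j k) (C := 3)
      (Eventually.of_forall fun x => by rw [Real.norm_eq_abs]; exact hTb j k x)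
    simpa using h1
  have hYb : ∀ j p x, |Yt T j p x| ≤ 1 := by
    intro j p x
    unfold Yt
    rw [abs_mul, sgn_abs, one_mul, abs_div, abs_of_pos (by norm_num : (0 : ℝ) < 6), div_le_one (by norm_num)]
    have h1 := hTb j p.1 x
    have h2 := hmean j p.1
    have h3 := abs_sub (T j p.1 x) (∫ y, T j p.1 y ∂un)
    linarith
  have hYm : ∀ j p, Measurable (Yt T j p) := by
    intro j p
    unfold Yt
    exact (((hTm j p.1).sub measurable_const).div_const 6).const_mul _
  have hY0 : ∀ j p, ∫ x, Yt T j p x ∂un = 0 := by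
    intro j p
    unfold Yt
    have hi : Integrable (T j p.1) un := Integrable.of_bound (hTm _ _).aestronglyMeasurable 3
      (Eventually.of_forall fun x => by rw [Real.norm_eq_abs]; exact hTb _ _ x)
    rw [integral_const_mul, integral_div, integral_sub hi (integrable_const _)]
    simp
  have hwp : ∀ p : κ × Bool × ℕ, 0 < wgt w p := by
    intro p
    unfold wgt
    have := hw p.1
    positivity
  have hwsum : Summable (wgt w) := by
    have h6 : Summable fun k : ℕ => (1 / 2 : ℝ) ^ k := summable_geometric_two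
    have h7 : Summable fun x : Bool × ℕ => (1 : ℝ) * (1 / 2) ^ x.2 :=
      Summable.mul_of_nonneg (f := fun _ : Bool => (1 : ℝ)) (Summable.of_finite) h6 (fun _ => zero_le_one)
        (fun k => by positivity)
    have h9 : Summable fun x : κ × Bool × ℕ => (1 / (w x.1 + 3) ^ 2) * (1 * (1 / 2 : ℝ) ^ x.2.2) :=
      Summable.mul_of_nonneg hws h7 (fun _ => by positivity) (fun k => by positivity)
    refine h9.congr fun x => ?_
    unfold wgt
    ring
  obtain ⟨q, hq1, hqN, hq2⟩ := greedy1 (Yt T) (fun p => (1 / 2) ^ p.2.2) (wgt w) N hN hYm hYb hY0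
    (fun p => by positivity) (fun p => pow_le_one₀ (by norm_num) (by norm_num)) hwp hwsum
  refine ⟨q, hq1, hqN, fun δ hδ => ?_⟩
  rcases isEmpty_or_nonempty κ with hκ | hκ
  · exact ⟨0, le_rfl, fun k => (hκ.false k).elim⟩
  obtain ⟨k0⟩ := hκ
  set W := ∑' p, wgt w p with hW
  have hW0 : 0 < W := hwsum.tsum_pos (fun p => (hwp p).le) (k0, true, 0) (hwp _)
  set C₀ := |Real.log W| + 2 with hC₀
  have hC₀0 : 0 ≤ C₀ := by positivity
  have hD0 : 0 ≤ 3 + C₀ + 1 / δ := by positivity
  refine ⟨6 * (3 + C₀ + 1 / δ), by positivity, fun k J => ?_⟩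
  have hwk := hw k
  set L := Real.log (w k + 3) with hLdef
  have hL : 1 ≤ L := by
    rw [hLdef, Real.le_log_iff_exp_le (by positivity)]
    have := Real.exp_one_lt_d9
    linarith
  -- one test
  have hone : ∀ c : Bool, ∑ j ∈ Finset.range J, Yt T j (k, c, 0) (q j) ≤
      (3 + C₀ + 1 / δ) * (J : ℝ) ^ (1 / 2 + δ) * √L := by
    intro c
    refine opt (Nat.cast_nonneg J) hL hC₀0 hδ ?_ ?_ ?_
    · rcases Nat.eq_zero_or_pos J with h | h
      · left; exact_mod_cast h
      · right; exact_mod_cast h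
    · calc ∑ j ∈ Finset.range J, Yt T j (k, c, 0) (q j) ≤ ∑ j ∈ Finset.range J, (1 : ℝ) :=
            Finset.sum_le_sum fun j _ => (le_abs_self _).trans (hYb _ _ _)
        _ = J := by simp
    · intro r
      have h1 := hq2 J (k, c, r)
      have h2 : ∑ j ∈ Finset.range J, Yt T j (k, c, r) (q j) = ∑ j ∈ Finset.range J, Yt T j (k, c, 0) (q j) := rfl
      rw [h2] at h1
      set S := ∑ j ∈ Finset.range J, Yt T j (k, c, 0) (q j) with hS
      have h3 : Real.log (W / wgt w (k, c, r)) ≤ C₀ * L + r := by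
        unfold wgt
        rw [Real.log_div hW0.ne' (by positivity), Real.log_mul (by positivity) (by positivity),
          Real.log_div one_ne_zero (by positivity), Real.log_one, Real.log_pow, Real.log_pow]
        have h4 : Real.log (1 / 2) = -Real.log 2 := by rw [one_div, Real.log_inv]
        rw [h4]
        have h5 : Real.log 2 ≤ 1 := by
          have := Real.log_two_lt_d9
          linarith
        have h6 : (r : ℝ) * Real.log 2 ≤ r := mul_le_of_le_one_right (Nat.cast_nonneg r) h5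
        have h7 := le_abs_self (Real.log W)
        have h8 : |Real.log W| ≤ |Real.log W| * L := le_mul_of_one_le_right (abs_nonneg _) hL
        have h9 : C₀ * L = |Real.log W| * L + 2 * L := by rw [hC₀]; ring
        push_cast
        linarith
      have h10 : (2 : ℝ) ^ r * ((1 / 2) ^ r * S) = S := by
        rw [← mul_assoc, ← mul_pow]
        norm_num
      have h11 : (2 : ℝ) ^ r * (((1 / 2) ^ r) ^ 2 * J) = (1 / 2) ^ r * J := by
        rw [pow_two, mul_assoc ((1 / 2 : ℝ) ^ r), ← mul_assoc, ← mul_pow]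
        norm_num
      have h12 : (1 / 2 : ℝ) ^ r * S ≤ ((1 / 2) ^ r) ^ 2 * J + (C₀ * L + r) := h1.trans (by linarith)
      calc S = (2 : ℝ) ^ r * ((1 / 2) ^ r * S) := h10.symm
        _ ≤ (2 : ℝ) ^ r * (((1 / 2) ^ r) ^ 2 * J + (C₀ * L + r)) :=
            mul_le_mul_of_nonneg_left h12 (by positivity)
        _ = (1 / 2) ^ r * J + 2 ^ r * (C₀ * L + r) := by rw [mul_add, h11]
  have h1 := hone true
  have h2 := hone false
  have e1 : ∑ j ∈ Finset.range J, Yt T j (k, true, 0) (q j) =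
      (∑ j ∈ Finset.range J, (T j k (q j) - ∫ y, T j k y ∂un)) / 6 := by
    rw [Finset.sum_div]
    refine Finset.sum_congr rfl fun j _ => ?_
    simp [Yt, sgn]
  have e2 : ∑ j ∈ Finset.range J, Yt T j (k, false, 0) (q j) =
      -((∑ j ∈ Finset.range J, (T j k (q j) - ∫ y, T j k y ∂un)) / 6) := by
    rw [Finset.sum_div, ← Finset.sum_neg_distrib]
    refine Finset.sum_congr rfl fun j _ => ?_
    simp [Yt, sgn]
  rw [e1] at h1
  rw [e2] at h2
  rw [abs_le]
  constructor <;> linarith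

end

end Pool.Agent.H73.TR
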