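import Pool.Agent.H73.TR.Gr

/-!
# The three points of a slot
-/

set_option autoImplicit false

open MeasureTheory Filter Topology Set
open scoped ENNReal

namespace Pool.Agent.H73.TR

open Pool.Agent.H49.BP

/-! ### Integrals -/

theorem bint {g : ℝ → ℝ} (hg : Measurable g) {B : ℝ} (hb : ∀ u, |g u| ≤ B) (a b : ℝ) :
    IntervalIntegrable g volume a b := by
  refine (intervalIntegrable_const (c := B) (μ := volume) (a := a) (b := b)).mono_fun hg.aestronglyMeasurable ?_
  refine Eventually.of_forall fun u => ?_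
  beta_reduce
  rw [Real.norm_eq_abs, Real.norm_eq_abs]
  exact (hb u).trans (le_abs_self _)

theorem un_int (g : ℝ → ℝ) : ∫ v, g v ∂un = ∫ v in (0 : ℝ)..1, g v := by
  rw [intervalIntegral.integral_of_le zero_le_one]
  rfl

theorem lin_int (g : ℝ → ℝ) {a b : ℝ} (hab : a < b) :
    ∫ v in (0 : ℝ)..1, g (a + v * (b - a)) = (b - a)⁻¹ * ∫ y in a..b, g y := by
  have h := intervalIntegral.integral_comp_add_mul (a := 0) (b := 1) g (c := b - a) (by linarith) a
  have e : (fun v : ℝ => g (a + v * (b - a))) = fun v => g (a + (b - a) * v) := by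
    funext v
    rw [mul_comm]
  rw [e, h, smul_eq_mul]
  congr 1
  congr 1 <;> ring

/-- the rotation of the slot `(a, b]` by `c` -/
noncomputable def rot (a b c y : ℝ) : ℝ := if y + c ≤ b then y + c else y + c - (b - a)

theorem rot_meas (a b c : ℝ) : Measurable (rot a b c) := by
  unfold rot
  refine Measurable.ite (measurableSet_le (by fun_prop) measurable_const) (by fun_prop) (by fun_prop)

theorem rot_int {g : ℝ → ℝ} (hg : Measurable g) {B : ℝ} (hb : ∀ u, |g u| ≤ B) {a b c : ℝ} (hc : 0 ≤ c)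
    (hcl : c ≤ b - a) : ∫ y in a..b, g (rot a b c y) = ∫ y in a..b, g y := by
  have hm : Measurable fun y => g (rot a b c y) := hg.comp (rot_meas a b c)
  have hbb : ∀ u, |g (rot a b c u)| ≤ B := fun u => hb _
  rw [← intervalIntegral.integral_add_adjacent_intervals (bint hm hbb a (b - c)) (bint hm hbb (b - c) b)]
  have h1 : ∫ y in a..(b - c), g (rot a b c y) = ∫ y in (a + c)..b, g y := by
    have h2 : ∫ y in a..(b - c), g (rot a b c y) = ∫ y in a..(b - c), g (y + c) := by
      rw [intervalIntegral.integral_of_le (by linarith), intervalIntegral.integral_of_le (by linarith)]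
      refine setIntegral_congr_fun measurableSet_Ioc fun y hy => ?_
      show g (rot a b c y) = g (y + c)
      unfold rot
      rw [if_pos (by linarith [hy.2])]
    rw [h2, intervalIntegral.integral_comp_add_right]
    congr 1
    ring
  have h3 : ∫ y in (b - c)..b, g (rot a b c y) = ∫ y in a..(a + c), g y := by
    have h2 : ∫ y in (b - c)..b, g (rot a b c y) = ∫ y in (b - c)..b, g (y + (c - (b - a))) := by
      rw [intervalIntegral.integral_of_le (by linarith), intervalIntegral.integral_of_le (by linarith)]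
      refine setIntegral_congr_fun measurableSet_Ioc fun y hy => ?_
      show g (rot a b c y) = g (y + (c - (b - a)))
      unfold rot
      rw [if_neg (by linarith [hy.1])]
      congr 1
      ring
    rw [h2, intervalIntegral.integral_comp_add_right]
    congr 1 <;> ring
  rw [h1, h3, add_comm]
  exact intervalIntegral.integral_add_adjacent_intervals (bint hg hb _ _) (bint hg hb _ _)

/-! ### The points -/

/-- the position in the slot -/
noncomputable def pp (j : ℕ) (v : ℝ) : ℝ := tt (3 * j) + v * (tt (3 * j + 3) - tt (3 * j))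

/-- the length of the slot -/
noncomputable def len (j : ℕ) : ℝ := tt (3 * j + 3) - tt (3 * j)

/-- the three points of the slot `j`, of the type `s` -/
noncomputable def pts (s : ℕ) (j : ℕ) (v : ℝ) (i : ℕ) : ℝ :=
  if s = 0 then tt (3 * j + i) + v * (tt (3 * j + i + 1) - tt (3 * j + i))
  else if pp j v + 6 ≤ tt (3 * j + 3) then
    (if i = 0 then pp j v else if i = 1 then pp j v + s else pp j v + 6)
  else if pp j v + s ≤ tt (3 * j + 3) then
    (if i = 0 then pp j v + 6 - len j else if i = 1 then pp j v else pp j v + s)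
  else (if i = 0 then pp j v + s - len j else if i = 1 then pp j v + 6 - len j else pp j v)

theorem tt_lt (n : ℕ) : tt n < tt (n + 1) := tt_mono (Nat.lt_succ_self n)

theorem len_pos (j : ℕ) : 0 < len j := by
  unfold len
  have := tt_mono (show 3 * j < 3 * j + 3 by omega)
  linarith

theorem pp_mem {j : ℕ} {v : ℝ} (hv : v ∈ Ioc (0 : ℝ) 1) : tt (3 * j) < pp j v ∧ pp j v ≤ tt (3 * j + 3) := by
  have h := len_pos j
  unfold len at h
  unfold pp
  constructor
  · have := mul_pos hv.1 h
    linarith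
  · have := mul_le_of_le_one_left h.le hv.2
    linarith

/-- the types that are used -/
def Good (s j : ℕ) : Prop := s = 0 ∨ ((s = 2 ∨ s = 4) ∧ 24 ≤ len j)

theorem pts_order {s j : ℕ} (hs : Good s j) {v : ℝ} (hv : v ∈ Ioc (0 : ℝ) 1) :
    tt (3 * j) < pts s j v 0 ∧ pts s j v 0 < pts s j v 1 ∧ pts s j v 1 < pts s j v 2 ∧
      pts s j v 2 ≤ tt (3 * j + 3) := by
  rcases hs with rfl | ⟨hs, hl⟩
  · have h0 := tt_lt (3 * j)
    have h1 := tt_lt (3 * j + 1)
    have h2 := tt_lt (3 * j + 2)
    have e1 : 3 * j + 1 + 1 = 3 * j + 2 := rfl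
    have e2 : 3 * j + 2 + 1 = 3 * j + 3 := rfl
    rw [e1] at h1
    rw [e2] at h2
    simp only [pts, if_true, add_zero, e1, e2]
    obtain ⟨hv1, hv2⟩ := hv
    refine ⟨?_, ?_, ?_, ?_⟩
    · nlinarith
    · nlinarith
    · nlinarith
    · nlinarith
  · have hs0 : s ≠ 0 := by rcases hs with h | h <;> omega
    have hs2 : (2 : ℝ) ≤ s := by rcases hs with h | h <;> (subst h; norm_num)
    have hs4 : (s : ℝ) ≤ 4 := by rcases hs with h | h <;> (subst h; norm_num)
    obtain ⟨h1, h2⟩ := pp_mem (j := j) hv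
    have hl' : tt (3 * j + 3) = tt (3 * j) + len j := by unfold len; ring
    unfold pts
    simp only [if_neg hs0]
    by_cases c1 : pp j v + 6 ≤ tt (3 * j + 3)
    · simp only [if_pos c1, if_true, one_ne_zero, if_false, OfNat.ofNat_ne_zero, OfNat.ofNat_ne_one]
      refine ⟨h1, by linarith, by linarith, c1⟩
    · simp only [if_neg c1]
      by_cases c2 : pp j v + s ≤ tt (3 * j + 3)
      · simp only [if_pos c2, if_true, one_ne_zero, if_false, OfNat.ofNat_ne_zero, OfNat.ofNat_ne_one]
        refine ⟨by linarith, by linarith, by linarith, c2⟩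
      · simp only [if_neg c2, if_true, one_ne_zero, if_false, OfNat.ofNat_ne_zero, OfNat.ofNat_ne_one]
        refine ⟨by linarith, by linarith, by linarith, h2⟩

theorem pts_ge {s j : ℕ} (hs : Good s j) {v : ℝ} (hv : v ∈ Ioc (0 : ℝ) 1) {i : ℕ} (hi : i < 3) :
    ((3 * j + i : ℕ) : ℝ) + 1 ≤ pts s j v i := by
  have hg : ∀ k : ℕ, ((3 * j + k : ℕ) : ℝ) + 1 ≤ tt (3 * j + k) := fun k => tt_ge _
  rcases hs with rfl | ⟨hs, hl⟩
  · have h0 := tt_lt (3 * j + i)
    have h1 := hg i
    unfold pts
    rw [if_pos rfl]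
    have := mul_nonneg hv.1.le (sub_pos.2 h0).le
    linarith
  · have hs0 : s ≠ 0 := by rcases hs with h | h <;> omega
    have hs2 : (2 : ℝ) ≤ s := by rcases hs with h | h <;> (subst h; norm_num)
    have hs4 : (s : ℝ) ≤ 4 := by rcases hs with h | h <;> (subst h; norm_num)
    obtain ⟨h1, h2⟩ := pp_mem (j := j) hv
    have hl' : tt (3 * j + 3) = tt (3 * j) + len j := by unfold len; ring
    have h3 : (3 * (j : ℝ)) + 1 ≤ tt (3 * j) := by
      have := tt_ge (3 * j)
      push_cast at this
      exact this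
    unfold pts
    simp only [if_neg hs0]
    by_cases c1 : pp j v + 6 ≤ tt (3 * j + 3)
    · simp only [if_pos c1]
      interval_cases i <;> simp <;> linarith
    · simp only [if_neg c1]
      by_cases c2 : pp j v + s ≤ tt (3 * j + 3)
      · simp only [if_pos c2]
        interval_cases i <;> simp <;> linarith
      · simp only [if_neg c2]
        interval_cases i <;> simp <;> linarith

theorem pp_meas (j : ℕ) : Measurable (pp j) := by
  unfold pp
  fun_prop

theorem pts_meas (s j i : ℕ) : Measurable fun v => pts s j v i := by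
  unfold pts
  have h := pp_meas j
  split_ifs
  · fun_prop
  all_goals
    refine Measurable.ite (measurableSet_le (by fun_prop) measurable_const) (by fun_prop) ?_
    refine Measurable.ite (measurableSet_le (by fun_prop) measurable_const) (by fun_prop) (by fun_prop)

/-- the sum of a function over the points of a slot -/
noncomputable def ssum (s j : ℕ) (g : ℝ → ℝ) (v : ℝ) : ℝ :=
  g (pts s j v 0) + g (pts s j v 1) + g (pts s j v 2)

theorem ssum_meas (s j : ℕ) {g : ℝ → ℝ} (hg : Measurable g) : Measurable (ssum s j g) := by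
  unfold ssum
  exact ((hg.comp (pts_meas s j 0)).add (hg.comp (pts_meas s j 1))).add (hg.comp (pts_meas s j 2))

theorem ssum_abs (s j : ℕ) {g : ℝ → ℝ} (hb : ∀ u, |g u| ≤ 1) (v : ℝ) : |ssum s j g v| ≤ 3 := by
  unfold ssum
  have h1 := hb (pts s j v 0)
  have h2 := hb (pts s j v 1)
  have h3 := hb (pts s j v 2)
  rw [abs_le] at *
  constructor <;> linarith [h1.1, h1.2, h2.1, h2.2, h3.1, h3.2]

theorem ssum_rot {s j : ℕ} (hs : s = 2 ∨ s = 4) (g : ℝ → ℝ) (v : ℝ) :
    ssum s j g v = g (pp j v) + g (rot (tt (3 * j)) (tt (3 * j + 3)) s (pp j v)) +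
      g (rot (tt (3 * j)) (tt (3 * j + 3)) 6 (pp j v)) := by
  have hs0 : s ≠ 0 := by rcases hs with h | h <;> omega
  have hs4 : (s : ℝ) ≤ 4 := by rcases hs with h | h <;> (subst h; norm_num)
  unfold ssum pts rot len
  simp only [if_neg hs0, if_true, one_ne_zero, if_false, OfNat.ofNat_ne_zero, OfNat.ofNat_ne_one]
  by_cases c1 : pp j v + 6 ≤ tt (3 * j + 3)
  · have c2 : pp j v + s ≤ tt (3 * j + 3) := by linarith
    simp only [if_pos c1, if_pos c2]
  · by_cases c2 : pp j v + s ≤ tt (3 * j + 3)
    · simp only [if_neg c1, if_pos c2]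
      ring
    · simp only [if_neg c1, if_neg c2]
      ring

theorem pp_int {g : ℝ → ℝ} (j : ℕ) :
    ∫ v in (0 : ℝ)..1, g (pp j v) = (len j)⁻¹ * ∫ y in (tt (3 * j))..(tt (3 * j + 3)), g y := by
  unfold pp len
  exact lin_int g (tt_mono (show 3 * j < 3 * j + 3 by omega))

theorem mean_rot {s j : ℕ} (hs : s = 2 ∨ s = 4) (hl : 24 ≤ len j) {g : ℝ → ℝ} (hg : Measurable g)
    (hb : ∀ u, |g u| ≤ 1) :
    ∫ v, ssum s j g v ∂un = 3 * (len j)⁻¹ * ∫ y in (tt (3 * j))..(tt (3 * j + 3)), g y := by
  rw [un_int]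
  have hs0 : (0 : ℝ) ≤ s := Nat.cast_nonneg s
  have hs4 : (s : ℝ) ≤ 4 := by rcases hs with h | h <;> (subst h; norm_num)
  have e : (fun v => ssum s j g v) = fun v => g (pp j v) + g (rot (tt (3 * j)) (tt (3 * j + 3)) s (pp j v)) +
      g (rot (tt (3 * j)) (tt (3 * j + 3)) 6 (pp j v)) := by
    funext v
    exact ssum_rot hs g v
  have hl' : tt (3 * j + 3) - tt (3 * j) = len j := rfl
  rw [e]
  have m0 : Measurable fun v => g (pp j v) := hg.comp (pp_meas j)
  have m1 : Measurable fun v => g (rot (tt (3 * j)) (tt (3 * j + 3)) s (pp j v)) :=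
    (hg.comp (rot_meas (tt (3 * j)) (tt (3 * j + 3)) s)).comp (pp_meas j)
  have m2 : Measurable fun v => g (rot (tt (3 * j)) (tt (3 * j + 3)) 6 (pp j v)) :=
    (hg.comp (rot_meas (tt (3 * j)) (tt (3 * j + 3)) 6)).comp (pp_meas j)
  have i0 := bint m0 (B := 1) (fun u => hb _) 0 1
  have i1 := bint m1 (B := 1) (fun u => hb _) 0 1
  have i2 := bint m2 (B := 1) (fun u => hb _) 0 1
  have h0 := pp_int (g := g) j
  have h1 := pp_int (g := fun y => g (rot (tt (3 * j)) (tt (3 * j + 3)) s y)) j
  have h2 := pp_int (g := fun y => g (rot (tt (3 * j)) (tt (3 * j + 3)) 6 y)) j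
  rw [rot_int hg hb hs0 (by linarith)] at h1
  rw [rot_int hg hb (by norm_num) (by linarith)] at h2
  have h3 : ∫ v in (0 : ℝ)..1, (g (pp j v) + g (rot (tt (3 * j)) (tt (3 * j + 3)) s (pp j v)) +
      g (rot (tt (3 * j)) (tt (3 * j + 3)) 6 (pp j v))) =
      (∫ v in (0 : ℝ)..1, g (pp j v)) + (∫ v in (0 : ℝ)..1, g (rot (tt (3 * j)) (tt (3 * j + 3)) s (pp j v))) +
      ∫ v in (0 : ℝ)..1, g (rot (tt (3 * j)) (tt (3 * j + 3)) 6 (pp j v)) := by
    rw [intervalIntegral.integral_add (i0.add i1) i2, intervalIntegral.integral_add i0 i1]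
  rw [h3, h0, h1, h2]
  ring

theorem mean_zero (j : ℕ) {g : ℝ → ℝ} (hg : Measurable g) (hb : ∀ u, |g u| ≤ 1) :
    ∫ v, ssum 0 j g v ∂un = ∑ i ∈ Finset.range 3, (tt (3 * j + i + 1) - tt (3 * j + i))⁻¹ *
      ∫ y in (tt (3 * j + i))..(tt (3 * j + i + 1)), g y := by
  rw [un_int]
  have e : (fun v => ssum 0 j g v) = fun v => g (tt (3 * j + 0) + v * (tt (3 * j + 0 + 1) - tt (3 * j + 0))) +
      g (tt (3 * j + 1) + v * (tt (3 * j + 1 + 1) - tt (3 * j + 1))) +
      g (tt (3 * j + 2) + v * (tt (3 * j + 2 + 1) - tt (3 * j + 2))) := by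
    funext v
    simp [ssum, pts]
  rw [e]
  have m : ∀ i : ℕ, Measurable fun v : ℝ => g (tt (3 * j + i) + v * (tt (3 * j + i + 1) - tt (3 * j + i))) := by
    intro i
    exact hg.comp (by fun_prop)
  have ii := fun i => bint (m i) (B := 1) (fun u => hb _) 0 1
  rw [intervalIntegral.integral_add ((ii 0).add (ii 1)) (ii 2), intervalIntegral.integral_add (ii 0) (ii 1),
    lin_int g (tt_lt _), lin_int g (tt_lt _), lin_int g (tt_lt _)]
  rw [Finset.sum_range_succ, Finset.sum_range_succ, Finset.sum_range_one]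

/-- a point hits a given value for few parameters -/
theorem pts_null {s j : ℕ} (i : ℕ) (c : ℝ) : {v : ℝ | pts s j v i = c}.Countable := by
  have hlin : ∀ a b e : ℝ, b ≠ 0 → {v : ℝ | a + v * b = e}.Countable := by
    intro a b e hb
    refine (countable_singleton ((e - a) / b)).mono fun v hv => ?_
    rw [mem_singleton_iff, eq_div_iff hb]
    have : a + v * b = e := hv
    linarith
  have hl : tt (3 * j + 3) - tt (3 * j) ≠ 0 := by
    have := len_pos j
    unfold len at this
    exact this.ne'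
  have h1 : {v : ℝ | pts s j v i = c} ⊆ {v | tt (3 * j + i) + v * (tt (3 * j + i + 1) - tt (3 * j + i)) = c} ∪
      ({v | tt (3 * j) + v * (tt (3 * j + 3) - tt (3 * j)) = c} ∪
      ({v | tt (3 * j) + v * (tt (3 * j + 3) - tt (3 * j)) = c - s} ∪
      ({v | tt (3 * j) + v * (tt (3 * j + 3) - tt (3 * j)) = c - 6} ∪
      ({v | tt (3 * j) + v * (tt (3 * j + 3) - tt (3 * j)) = c - 6 + len j} ∪
      {v | tt (3 * j) + v * (tt (3 * j + 3) - tt (3 * j)) = c - s + len j})))) := by
    intro v hv
    have hv' : pts s j v i = c := hv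
    simp only [mem_union, mem_ofPred_eq]
    unfold pts at hv'
    have hpp : tt (3 * j) + v * (tt (3 * j + 3) - tt (3 * j)) = pp j v := rfl
    rw [hpp]
    split_ifs at hv'
    · left; exact hv'
    · right; left; exact hv'
    · right; right; left; linarith
    · right; right; right; left; linarith
    · right; right; right; right; left; linarith
    · right; left; exact hv'
    · right; right; left; linarith
    · right; right; right; right; right; linarith
    · right; right; right; right; left; linarith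
    · right; left; exact hv'
  refine Countable.mono h1 ?_
  exact (hlin _ _ _ (sub_pos.2 (tt_lt _)).ne').union ((hlin _ _ _ hl).union ((hlin _ _ _ hl).union
    ((hlin _ _ _ hl).union ((hlin _ _ _ hl).union (hlin _ _ _ hl)))))

end Pool.Agent.H73.TR
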