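import Pool.Agent.H73.TR.Pt

/-!
# The choice of the types of the slots (two queues)
-/

set_option autoImplicit false

open MeasureTheory Filter Topology Set

namespace Pool.Agent.H73.TR

/-- the type that is served, for the backlogs `x`, `y` -/
noncomputable def serve (x y : ℝ) : ℕ := if y ≤ x ∧ 0 < x then 2 else if 0 < y then 4 else 0

/-- the backlogs -/
noncomputable def bl (w2 w4 e : ℕ → ℝ) : ℕ → ℝ × ℝ
  | 0 => (0, 0)
  | j + 1 =>
    let x := (bl w2 w4 e j).1 + w2 j
    let y := (bl w2 w4 e j).2 + w4 j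
    (if serve x y = 2 then x - e j else x, if serve x y = 4 then y - e j else y)

/-- the types -/
noncomputable def tyq (w2 w4 e : ℕ → ℝ) (j : ℕ) : ℕ := serve ((bl w2 w4 e j).1 + w2 j) ((bl w2 w4 e j).2 + w4 j)

theorem serve_cases (x y : ℝ) : serve x y = 0 ∨ serve x y = 2 ∨ serve x y = 4 := by
  unfold serve
  split_ifs <;> simp

section
variable {w2 w4 e : ℕ → ℝ} (h2 : ∀ j, 0 ≤ w2 j) (h4 : ∀ j, 0 ≤ w4 j) (he : ∀ j, w2 j + w4 j ≤ e j) (he1 : ∀ j, e j ≤ 1)

include h2 h4 he he1

theorem bl_bd (J : ℕ) : -1 ≤ (bl w2 w4 e J).1 ∧ -1 ≤ (bl w2 w4 e J).2 ∧ (bl w2 w4 e J).1 + (bl w2 w4 e J).2 ≤ 0 := by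
  induction J with
  | zero => simp [bl]
  | succ J ih =>
    obtain ⟨i1, i2, i3⟩ := ih
    have a1 := h2 J
    have a2 := h4 J
    have a3 := he J
    have a4 := he1 J
    simp only [bl]
    generalize hx : (bl w2 w4 e J).1 + w2 J = x
    generalize hy : (bl w2 w4 e J).2 + w4 J = y
    by_cases c1 : y ≤ x ∧ 0 < x
    · have s : serve x y = 2 := by unfold serve; rw [if_pos c1]
      rw [s]
      simp only [if_true, OfNat.ofNat_eq_ofNat, Nat.reduceEqDiff, if_false]
      refine ⟨by linarith [c1.2], by linarith, by linarith⟩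
    · by_cases c2 : 0 < y
      · have s : serve x y = 4 := by unfold serve; rw [if_neg c1, if_pos c2]
        rw [s]
        simp only [if_true, OfNat.ofNat_eq_ofNat, Nat.reduceEqDiff, if_false]
        refine ⟨by linarith, by linarith, by linarith⟩
      · have s : serve x y = 0 := by unfold serve; rw [if_neg c1, if_neg c2]
        rw [s]
        simp only [OfNat.zero_ne_ofNat, if_false]
        have c3 : x ≤ 0 := by
          by_contra h
          push Not at h c2
          exact c1 ⟨by linarith, h⟩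
        push Not at c2
        refine ⟨by linarith, by linarith, by linarith⟩

theorem ty_sum2 (J : ℕ) : |∑ j ∈ Finset.range J, ((if tyq w2 w4 e j = 2 then e j else 0) - w2 j)| ≤ 1 := by
  have h : ∑ j ∈ Finset.range J, ((if tyq w2 w4 e j = 2 then e j else 0) - w2 j) = -(bl w2 w4 e J).1 := by
    induction J with
    | zero => simp [bl]
    | succ J ih =>
      rw [Finset.sum_range_succ, ih]
      simp only [bl, tyq]
      split_ifs <;> ring
  rw [h]
  obtain ⟨i1, i2, i3⟩ := bl_bd h2 h4 he he1 J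
  rw [abs_le]
  constructor <;> linarith

theorem ty_sum4 (J : ℕ) : |∑ j ∈ Finset.range J, ((if tyq w2 w4 e j = 4 then e j else 0) - w4 j)| ≤ 1 := by
  have h : ∑ j ∈ Finset.range J, ((if tyq w2 w4 e j = 4 then e j else 0) - w4 j) = -(bl w2 w4 e J).2 := by
    induction J with
    | zero => simp [bl]
    | succ J ih =>
      rw [Finset.sum_range_succ, ih]
      simp only [bl, tyq]
      split_ifs <;> ring
  rw [h]
  obtain ⟨i1, i2, i3⟩ := bl_bd h2 h4 he he1 J
  rw [abs_le]
  constructor <;> linarith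

end

end Pool.Agent.H73.TR
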